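import Mathlib
import Pool.Agent.J4.H34.PH.Inst

/-!
# 3SUM: hashing values of rational functions

The algorithms (`Prog` in `Pool.Agent.J4.H34.PH.Model`) compute values of rational functions of the
input numbers, over the real numbers or over any other fields in which the natural numbers below `N`
are different from zero (for instance the prime fields of order at least `N`); a rational function
has at most `κ` variables, and numerator and denominator have degree at most `Δ`. They see all the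
equalities among the values computed so far (a hash table), and they have no other access to the
input.

Theorem. A randomized algorithm of this kind which solves 3SUM on `n` distinct integers in `[-N, N]`,
where `N ≥ n ^ 3`, with error probability at most `1 / 3` computes at least
`10 ^ (-6) * min (n ^ 2 / κ ^ 2) (√(n N / (κ Δ)))` values on the average for some input.

For `N = n ^ 3` these are `n ^ (2 - o (1))` values if `κ` and `Δ` are `n ^ o (1)`.

Proof. The hard inputs (three blocks of random numbers, and a planted solution `x_i + x_j = x_k`) are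
those of helper80's `GenericHashing`, where this is proved for affine forms. For affine forms the set
of the coordinates on which a pair depends and the effect of a planted solution can be read off the
coefficients. Here the only property of the functions is that on each line two of them are equal at
few points or different at few points. An equality (or inequality) is exceptional for a line if it
holds at few points. With high probability there is no exceptional equality at a random input for the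
lines through it in the directions `i`, `j`, `k`; if the planted solution is noticed by a pair of
functions, then it is exceptional for the line in direction `k`; if the pair does not depend on the
coordinate `i` (or `j`), then it is also exceptional for the line on which `x_i` and `x_k` (or `x_j`
and `x_k`) move together, and this is unlikely by an injection along this line. So all three
coordinates occur in the pair, and two of them in one function; this happens for few labels.
-/

set_option autoImplicit false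

open Finset MeasureTheory
open scoped ENNReal

namespace Pool.Agent.Results.MP_13bec0_lc.ArithmeticHashing

open Pool.Agent.J4.H34.PH Pool.Agent.J4.H80.Gen Pool.Agent.J4.H80.Cover

variable {n m : ℕ}

/-- averaging over the random choices -/
lemma average {ι Ω : Type} [MeasurableSpace Ω] (μ : Measure Ω) [IsProbabilityMeasure μ]
    (S : Finset ι) (E : ι → Set Ω) (hE : ∀ i ∈ S, MeasurableSet (E i)) (K : ℝ) (π : ι → ℝ)
    (hK : ∀ ω, K ≤ ∑ i ∈ S, (E i).indicator (fun _ => (1 : ℝ)) ω)
    (hμ : ∀ i ∈ S, μ.real (E i) ≤ π i) : K ≤ ∑ i ∈ S, π i := by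
  have hint : ∀ i ∈ S, Integrable ((E i).indicator (fun _ => (1 : ℝ))) μ := fun i hi =>
    (integrable_const (1 : ℝ)).indicator (hE i hi)
  have h1 : ∫ _ω, K ∂μ ≤ ∫ ω, ∑ i ∈ S, (E i).indicator (fun _ => (1 : ℝ)) ω ∂μ :=
    integral_mono (integrable_const K) (integrable_finsetSum S hint) hK
  rw [integral_finsetSum S hint] at h1
  have h2 : ∑ i ∈ S, ∫ ω, (E i).indicator (fun _ => (1 : ℝ)) ω ∂μ ≤ ∑ i ∈ S, π i := by
    refine sum_le_sum fun i hi => ?_
    rw [integral_indicator_const _ (hE i hi)]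
    simpa using hμ i hi
  have h3 : ∫ _ω, K ∂μ = K := by simp
  linarith

/-- the numerical part -/
lemma numeric (n m q ℓ κ Δ T' T N V B : ℝ) (hn : 1000 ≤ n) (hm1 : n - 5 ≤ 6 * m)
    (hm2 : 6 * m ≤ n) (hN : n ^ 3 ≤ N) (hq1 : N - 32 ≤ 33 * q)
    (hℓ1 : q ≤ 2000 * Δ * ℓ) (hℓ2 : 1000 * Δ * ℓ ≤ q) (hℓ0 : 1 ≤ ℓ)
    (hκ : 1 ≤ κ) (hΔ : 1 ≤ Δ) (hT : 0 < T) (hT'0 : 0 ≤ T') (hT' : T' ≤ 20 * T) (hB : 0 < B)
    (hV : 2 * q * B ≤ 2 * q * V + (6 * m ^ 2 + m ^ 3) * B)
    (h1 : 10 ^ 6 * T < n ^ 2 / κ ^ 2) (h2 : 10 ^ 12 * T ^ 2 < n * N / (κ * Δ))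
    (h : V * m ^ 3 - B * m ^ 3 * (2 * κ * T' ^ 2 / (ℓ * m) + 3 * (4 * (4 * Δ) * ℓ + 1) / q +
      κ ^ 2 * T' / m ^ 2 + 4 * (4 * Δ) * ℓ / (q - 2 * (4 * Δ) * ℓ)) ≤
        V * m ^ 3 * (1 / 3 + 1 / 3 + 1 / 20)) : False := by
  have hn0 : 0 < n := by linarith
  have hm0 : 165 ≤ m := by linarith
  have hn2 : 1000 * 1000 ≤ n ^ 2 := by nlinarith
  have hn3 : 1000 * n ^ 2 ≤ n ^ 3 := by nlinarith
  have hN0 : 10 ^ 9 ≤ N := by linarith
  have hq0 : N / 34 ≤ q := by linarith
  have hq00 : 0 < q := by linarith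
  have hΔℓ : 0 < Δ * ℓ := by positivity
  have hm3 : 0 < m ^ 3 := by positivity
  -- the four terms
  have a1 : 2 * κ * T' ^ 2 / (ℓ * m) ≤ 1 / 1000 := by
    have h3 : T' ^ 2 ≤ 400 * T ^ 2 := by nlinarith
    have h4 : κ * Δ * (10 ^ 12 * T ^ 2) < n * N := by
      rw [lt_div_iff₀ (by positivity)] at h2
      linarith
    have h5 : κ * Δ * T' ^ 2 ≤ κ * Δ * (400 * T ^ 2) :=
      mul_le_mul_of_nonneg_left h3 (by positivity)
    have h6 : n * N / (2000 * 34 * 6.1) ≤ Δ * ℓ * m := by
      have h7 : N / (34 * 2000) ≤ Δ * ℓ := by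
        rw [div_le_iff₀ (by norm_num)]
        linarith
      calc n * N / (2000 * 34 * 6.1) = (N / (34 * 2000)) * (n / 6.1) := by
            field_simp
        _ ≤ Δ * ℓ * m := mul_le_mul h7 (by
            rw [div_le_iff₀ (by norm_num)]
            linarith) (by positivity) (by positivity)
    have h8 : Δ * (2 * κ * T' ^ 2) ≤ Δ * (1 / 1000 * (ℓ * m)) := by
      have e1 : Δ * (2 * κ * T' ^ 2) = 2 * (κ * Δ * T' ^ 2) := by ring
      have e2 : Δ * (1 / 1000 * (ℓ * m)) = 1 / 1000 * (Δ * ℓ * m) := by ring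
      rw [e1, e2]
      have h9 : κ * Δ * (400 * T ^ 2) ≤ 400 / 10 ^ 12 * (n * N) := by
        have e3 : κ * Δ * (400 * T ^ 2) = 400 / 10 ^ 12 * (κ * Δ * (10 ^ 12 * T ^ 2)) := by ring
        rw [e3]
        exact mul_le_mul_of_nonneg_left h4.le (by norm_num)
      have h10 : (0 : ℝ) < n * N := by positivity
      have h11 : n * N / (2000 * 34 * 6.1) = n * N * (1 / 414800) := by
        norm_num
        ring
      rw [h11] at h6
      linarith
    rw [div_le_iff₀ (by positivity)]
    exact le_of_mul_le_mul_left h8 (by positivity)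
  have a2 : 3 * (4 * (4 * Δ) * ℓ + 1) / q ≤ 61 / 1000 := by
    rw [div_le_iff₀ hq00]
    linarith
  have a3 : κ ^ 2 * T' / m ^ 2 ≤ 1 / 1000 := by
    rw [div_le_iff₀ (by positivity)]
    have h3 : κ ^ 2 * T ≤ n ^ 2 / 10 ^ 6 := by
      rw [lt_div_iff₀ (by positivity)] at h1
      rw [le_div_iff₀ (by norm_num)]
      linarith
    have h4 : (n * (10 / 61)) ^ 2 ≤ m ^ 2 := by
      apply pow_le_pow_left₀ (by positivity)
      linarith
    have h5 : (n * (10 / 61)) ^ 2 = n ^ 2 * (100 / 3721) := by ring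
    rw [h5] at h4
    have h6 : κ ^ 2 * T' ≤ κ ^ 2 * (20 * T) := mul_le_mul_of_nonneg_left hT' (by positivity)
    linarith
  have a4 : 4 * (4 * Δ) * ℓ / (q - 2 * (4 * Δ) * ℓ) ≤ 17 / 1000 := by
    have hpos : 0 < q - 2 * (4 * Δ) * ℓ := by linarith
    rw [div_le_iff₀ hpos]
    linarith
  have hV' : 9 / 10 * B ≤ V := by
    have h3 : (6 * m ^ 2 + m ^ 3) ≤ q / 5 := by
      have h4 : m ^ 2 ≤ (n / 6) ^ 2 := pow_le_pow_left₀ (by linarith) (by linarith) 2
      have h5 : m ^ 3 ≤ (n / 6) ^ 3 := pow_le_pow_left₀ (by linarith) (by linarith) 3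
      have e4 : (n / 6) ^ 2 = n ^ 2 / 36 := by ring
      have e5 : (n / 6) ^ 3 = n ^ 3 / 216 := by ring
      rw [e4] at h4
      rw [e5] at h5
      linarith
    have h6 : (6 * m ^ 2 + m ^ 3) * B ≤ q / 5 * B := mul_le_mul_of_nonneg_right h3 hB.le
    have h7 : 2 * q * (9 / 10 * B) ≤ 2 * q * V := by linarith
    exact le_of_mul_le_mul_left h7 (by positivity)
  have hδ : 2 * κ * T' ^ 2 / (ℓ * m) + 3 * (4 * (4 * Δ) * ℓ + 1) / q + κ ^ 2 * T' / m ^ 2 +
      4 * (4 * Δ) * ℓ / (q - 2 * (4 * Δ) * ℓ) ≤ 21 / 100 := by linarith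
  have h3 : B * m ^ 3 * (2 * κ * T' ^ 2 / (ℓ * m) + 3 * (4 * (4 * Δ) * ℓ + 1) / q +
      κ ^ 2 * T' / m ^ 2 + 4 * (4 * Δ) * ℓ / (q - 2 * (4 * Δ) * ℓ)) ≤
      B * m ^ 3 * (21 / 100) := mul_le_mul_of_nonneg_left hδ (by positivity)
  have h4 : 9 / 10 * B * m ^ 3 ≤ V * m ^ 3 := mul_le_mul_of_nonneg_right hV' hm3.le
  have h5 : 0 < B * m ^ 3 := by positivity
  linarith

section

variable {ι : Type} {K : ι → Type} [∀ i, Field (K i)]

/-- the events of the averaging argument -/
def event {Ω : Type} (n m : ℕ) (p : Ω → Prog K n) (T : ℕ)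
    (x : ((Fin 3 × Fin m → ℕ) × Lab m) × Fin 3) : Set Ω :=
  ![{ω | (p ω).answer (inp n m x.1.1) = true},
    {ω | (p ω).answer (inp n m (plant x.1.1 x.1.2)) = false},
    {ω | T < (p ω).cost (inp n m x.1.1)}] x.2

theorem core {n κ Δ N : ℕ} {T : ℝ} (hn : 1000 ≤ n) (hκ : 1 ≤ κ) (hΔ : 1 ≤ Δ) (hN : n ^ 3 ≤ N)
    (hΔN : 10 ^ 6 * Δ ≤ N) (hK : ∀ i, ∀ k : ℕ, 0 < k → k < N → (k : K i) ≠ 0) {Ω : Type}
    [MeasurableSpace Ω] (μ : Measure Ω) [IsProbabilityMeasure μ] (p : Ω → Prog K n)
    (h : Solves N κ Δ T μ p) (hT : 0 < T) :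
    min ((n : ℝ) ^ 2 / κ ^ 2) (√(n * N / (κ * Δ))) ≤ 10 ^ 6 * T := by
  classical
  by_contra hcon
  rw [not_le] at hcon
  obtain ⟨h1, h2⟩ := lt_min_iff.1 hcon
  have h2' : 10 ^ 12 * T ^ 2 < n * N / (κ * Δ) := by
    have h3 := (Real.lt_sqrt (by positivity)).1 h2
    linarith
  obtain ⟨m, hmdef⟩ : ∃ m, m = n / 6 := ⟨_, rfl⟩
  obtain ⟨q, hqdef⟩ : ∃ q, q = N / 33 := ⟨_, rfl⟩
  obtain ⟨ℓ, hℓdef⟩ : ∃ ℓ, ℓ = q / (1000 * Δ) := ⟨_, rfl⟩
  obtain ⟨T', hT'def⟩ : ∃ T', T' = ⌊20 * T⌋₊ := ⟨_, rfl⟩
  have hm : 3 * m ≤ n := by omega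
  have hm0 : 0 < m := by omega
  have hn2 : 1000 * n ^ 2 ≤ n ^ 3 := by
    have : n ^ 3 = n * n ^ 2 := by ring
    rw [this]
    exact Nat.mul_le_mul_right _ hn
  have hn1 : 1000 * n ≤ n ^ 2 := by
    have : n ^ 2 = n * n := by ring
    rw [this]
    exact Nat.mul_le_mul_right _ hn
  have hNbig : 16 * n ≤ N := by omega
  have hN9 : 10 ^ 9 ≤ N := by omega
  have hq33 : 33 * q ≤ N := by omega
  have hq1 : 1 ≤ q := by omega
  have hqΔ : 1000 * Δ ≤ q := by omega
  have hℓ0 : 0 < ℓ := by
    rw [hℓdef]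
    exact Nat.div_pos hqΔ (by omega)
  have hℓ2 : 1000 * Δ * ℓ ≤ q := by
    rw [hℓdef]
    exact Nat.mul_div_le _ _
  have hℓ1 : q ≤ 2000 * Δ * ℓ := by
    have h3 : q < 1000 * Δ * (ℓ + 1) := by
      rw [hℓdef]
      exact Nat.lt_mul_div_succ q (by omega)
    have h4 : 1000 * Δ * (ℓ + 1) ≤ 1000 * Δ * (2 * ℓ) := Nat.mul_le_mul_left _ (by omega)
    have h5 : 1000 * Δ * (2 * ℓ) = 2000 * Δ * ℓ := by ring
    omega
  have hℓq : 2 * (4 * Δ) * ℓ < q := by
    have h3 : 0 < Δ * ℓ := Nat.mul_pos (by omega) hℓ0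
    have h4 : 1000 * Δ * ℓ = 1000 * (Δ * ℓ) := by ring
    have h5 : 2 * (4 * Δ) * ℓ = 8 * (Δ * ℓ) := by ring
    omega
  have hT'20 : (T' : ℝ) ≤ 20 * T := by
    rw [hT'def]
    exact Nat.floor_le (by positivity)
  have hK' : ∀ i, BigField (2 * q) (K i) := fun i k hk1 hk2 => hK i k hk1 (by omega)
  -- the counting argument for each program
  have hbad := fun ω => card_Bad (alg hm hK' (p ω) (h.uses ω)) T' ℓ hℓ0 hℓq hm0
  set V : Finset (Fin 3 × Fin m → ℕ) := (box (rg m q)).filter fun s => No s with hVdef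
  set B : ℝ := ((box (rg m q)).card : ℝ) with hBdef
  set δ : ℝ := 2 * κ * T' ^ 2 / (ℓ * m) + 3 * (4 * (4 * Δ) * ℓ + 1) / q + κ ^ 2 * T' / m ^ 2 +
    4 * (4 * Δ) * ℓ / ((q : ℝ) - 2 * (4 * Δ) * ℓ) with hδ
  have hbad' : ∀ ω, ((Pool.Agent.J4.H34.PH.Bad (alg hm hK' (p ω) (h.uses ω)) T').card : ℝ) ≤ B * (m : ℝ) ^ 3 * δ := by
    intro ω
    have := hbad ω
    push_cast at this
    exact this
  have hVval : ∀ s ∈ V, Valid N (inp n m s) := fun s hs =>
    valid_inp hm hq33 hq1 hNbig (mem_filter.1 hs).1 (mem_filter.1 hs).2.1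
  have hVval' : ∀ s ∈ V, ∀ l, Valid N (inp n m (plant s l)) := fun s hs l =>
    valid_inp hm hq33 hq1 hNbig (plant_mem (mem_filter.1 hs).1 l)
      (plant_inj (mem_filter.1 hs).2 l)
  have key : (V.card : ℝ) * m ^ 3 - B * m ^ 3 * δ ≤
      ∑ x ∈ (V ×ˢ (univ : Finset (Lab m))) ×ˢ (univ : Finset (Fin 3)),
        (![1 / 3, 1 / 3, 1 / 20] x.2 : ℝ) := by
    apply average μ _ (event n m p T')
    · rintro ⟨⟨s, l⟩, t⟩ hx
      have hs : s ∈ V := by
        simp only [mem_product] at hx
        exact hx.1.1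
      fin_cases t
      · exact h.measurable_answer _ (hVval s hs) (measurableSet_singleton true)
      · exact h.measurable_answer _ (hVval' s hs l) (measurableSet_singleton false)
      · exact h.measurable_cost _ (hVval s hs) measurableSet_Ioi
    · intro ω
      rw [sum_product]
      have h3 : ∀ x ∈ V ×ˢ (univ : Finset (Lab m)), (1 : ℝ) ≤
          ∑ t : Fin 3, (event n m p T' (x, t)).indicator (fun _ => (1 : ℝ)) ω +
            if x ∈ Pool.Agent.J4.H34.PH.Bad (alg hm hK' (p ω) (h.uses ω)) T' then 1 else 0 := by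
        rintro ⟨s, l⟩ hx
        have hs : s ∈ V := (mem_product.1 hx).1
        rw [Fin.sum_univ_three]
        have hnn : ∀ t : Fin 3, (0 : ℝ) ≤
            (event n m p T' ((s, l), t)).indicator (fun _ => (1 : ℝ)) ω := fun t =>
          Set.indicator_nonneg (fun _ _ => zero_le_one) ω
        have n0 := hnn 0
        have n1 := hnn 1
        have n2 := hnn 2
        have n3 : (0 : ℝ) ≤ if (s, l) ∈ Pool.Agent.J4.H34.PH.Bad (alg hm hK' (p ω) (h.uses ω)) T' then 1 else 0 := by
          split_ifs <;> norm_num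
        by_cases c0 : (p ω).answer (inp n m s) = true
        · have : (event n m p T' ((s, l), 0)).indicator (fun _ => (1 : ℝ)) ω = 1 :=
            Set.indicator_of_mem (show ω ∈ event n m p T' ((s, l), 0) from c0) _
          linarith
        by_cases c1 : (p ω).answer (inp n m (plant s l)) = false
        · have : (event n m p T' ((s, l), 1)).indicator (fun _ => (1 : ℝ)) ω = 1 :=
            Set.indicator_of_mem (show ω ∈ event n m p T' ((s, l), 1) from c1) _
          linarith
        by_cases c2 : T' < (p ω).cost (inp n m s)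
        · have : (event n m p T' ((s, l), 2)).indicator (fun _ => (1 : ℝ)) ω = 1 :=
            Set.indicator_of_mem (show ω ∈ event n m p T' ((s, l), 2) from c2) _
          linarith
        have c3 : (s, l) ∈ Pool.Agent.J4.H34.PH.Bad (alg hm hK' (p ω) (h.uses ω)) T' := by
          rw [Pool.Agent.J4.H34.PH.Bad, mem_filter]
          refine ⟨mem_product.2 ⟨(mem_filter.1 hs).1, mem_univ _⟩,
            (alg_card hm hK' (p ω) (h.uses ω) s).trans (not_lt.1 c2), ?_⟩
          intro hsame
          have h4 := hsame.2.1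
          simp only at h4
          rw [alg_ans, alg_ans] at h4
          rw [h4] at c0
          exact c1 (by simpa using c0)
        rw [if_pos c3]
        linarith
      have h4 := sum_le_sum h3
      rw [sum_add_distrib, sum_const, card_product, nsmul_eq_mul, mul_one] at h4
      have h5 : ∑ x ∈ V ×ˢ (univ : Finset (Lab m)),
          (if x ∈ Pool.Agent.J4.H34.PH.Bad (alg hm hK' (p ω) (h.uses ω)) T' then (1 : ℝ) else 0) ≤
            B * m ^ 3 * δ := by
        rw [sum_ite, sum_const_zero, add_zero, sum_const, nsmul_eq_mul, mul_one]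
        refine le_trans ?_ (hbad' ω)
        exact_mod_cast card_le_card fun x hx => (mem_filter.1 hx).2
      have h6 : ((V.card * (univ : Finset (Lab m)).card : ℕ) : ℝ) = V.card * m ^ 3 := by
        push_cast
        simp
      rw [h6] at h4
      linarith
    · rintro ⟨⟨s, l⟩, t⟩ hx
      have hs : s ∈ V := by
        simp only [mem_product] at hx
        exact hx.1.1
      fin_cases t
      · change μ.real {ω | (p ω).answer (inp n m s) = true} ≤ 1 / 3
        have h3 := h.error_le _ (hVval s hs)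
        have h4 : {ω | ¬ ((p ω).answer (inp n m s) = true ↔ Has3Sum (inp n m s))} =
            {ω | (p ω).answer (inp n m s) = true} := by
          ext ω
          have := not_has3Sum hm (mem_filter.1 hs).2
          simp [this]
        rw [h4] at h3
        exact ENNReal.toReal_le_of_le_ofReal (by norm_num) h3
      · change μ.real {ω | (p ω).answer (inp n m (plant s l)) = false} ≤ 1 / 3
        have h3 := h.error_le _ (hVval' s hs l)
        have h4 : {ω | ¬ ((p ω).answer (inp n m (plant s l)) = true ↔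
            Has3Sum (inp n m (plant s l)))} =
            {ω | (p ω).answer (inp n m (plant s l)) = false} := by
          ext ω
          have := has3Sum_plant hm s l
          simp [this]
        rw [h4] at h3
        exact ENNReal.toReal_le_of_le_ofReal (by norm_num) h3
      · change μ.real {ω | T' < (p ω).cost (inp n m s)} ≤ 1 / 20
        have h3 := h.cost_le _ (hVval s hs)
        have h4 := meas_ge_le_lintegral_div (μ := μ)
          (f := fun ω => (((p ω).cost (inp n m s) : ℕ) : ℝ≥0∞))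
          (by
            have := h.measurable_cost _ (hVval s hs)
            exact (measurable_from_top.comp this).aemeasurable)
          (ε := ENNReal.ofReal (20 * T)) (by
            rw [Ne, ENNReal.ofReal_eq_zero]
            push Not
            positivity) ENNReal.ofReal_ne_top
        have h5 : {ω | T' < (p ω).cost (inp n m s)} ⊆
            {ω | ENNReal.ofReal (20 * T) ≤ (((p ω).cost (inp n m s) : ℕ) : ℝ≥0∞)} := by
          intro ω hω
          have hω' : ⌊20 * T⌋₊ < (p ω).cost (inp n m s) := by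
            rw [← hT'def]
            exact hω
          have h6 := (Nat.floor_lt (by positivity)).1 hω'
          change ENNReal.ofReal (20 * T) ≤ (((p ω).cost (inp n m s) : ℕ) : ℝ≥0∞)
          rw [← ENNReal.ofReal_natCast]
          exact ENNReal.ofReal_le_ofReal h6.le
        have h6 : μ {ω | T' < (p ω).cost (inp n m s)} ≤ ENNReal.ofReal (1 / 20) := by
          refine (measure_mono h5).trans (h4.trans ?_)
          refine (ENNReal.div_le_div_right h3 _).trans ?_
          rw [← ENNReal.ofReal_div_of_pos (by positivity)]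
          apply ENNReal.ofReal_le_ofReal
          rw [div_le_div_iff₀ (by positivity) (by norm_num)]
          linarith
        exact ENNReal.toReal_le_of_le_ofReal (by norm_num) h6
  have hsum : ∑ x ∈ (V ×ˢ (univ : Finset (Lab m))) ×ˢ (univ : Finset (Fin 3)),
        (![1 / 3, 1 / 3, 1 / 20] x.2 : ℝ) = V.card * m ^ 3 * (1 / 3 + 1 / 3 + 1 / 20) := by
    rw [sum_product]
    simp only [Fin.sum_univ_three]
    rw [sum_const, card_product, nsmul_eq_mul]
    push_cast
    simp
  rw [hsum] at key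
  have hB0 : 0 < B := by
    rw [hBdef]
    have : (fun _ => 0 : Fin 3 × Fin m → ℕ) ∈ box (rg m q) := by
      rw [mem_box]
      intro b
      exact lt_of_lt_of_le (by omega) (rg_ge q b)
    exact_mod_cast card_pos.2 ⟨_, this⟩
  have hno := card_no (m := m) q
  have hno' : 2 * (q : ℝ) * B ≤ 2 * q * V.card + (6 * m ^ 2 + m ^ 3) * B := by
    have : ((2 * q * (box (rg m q)).card : ℕ) : ℝ) ≤
      ((2 * q * ((box (rg m q)).filter fun s => No s).card +
      (6 * m ^ 2 + m ^ 3) * (box (rg m q)).card : ℕ) : ℝ) := by exact_mod_cast hno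
    push_cast at this
    exact this
  have c1 : (n : ℝ) - 5 ≤ 6 * m := by
    have : n ≤ 6 * m + 5 := by omega
    have : (n : ℝ) ≤ 6 * m + 5 := by exact_mod_cast this
    linarith
  have c2 : 6 * (m : ℝ) ≤ n := by
    have : 6 * m ≤ n := by omega
    exact_mod_cast this
  have c3 : (N : ℝ) - 32 ≤ 33 * q := by
    have : N ≤ 33 * q + 32 := by omega
    have : (N : ℝ) ≤ 33 * q + 32 := by exact_mod_cast this
    linarith
  exact numeric n m q ℓ κ Δ T' T N V.card B (by exact_mod_cast hn) c1 c2 (by exact_mod_cast hN)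
    c3 (by exact_mod_cast hℓ1) (by exact_mod_cast hℓ2) (by exact_mod_cast hℓ0)
    (by exact_mod_cast hκ) (by exact_mod_cast hΔ) hT (Nat.cast_nonneg _) hT'20 hB0 hno' h1 h2' key

end

/-- **Main theorem.** A randomized algorithm which computes rational functions of at most `κ` input
numbers and of degree at most `Δ`, which sees only the equalities among their values, and which
solves 3SUM on `n` distinct integers in `[-N, N]`, where `N ≥ n ^ 3`, with error probability at most
`1 / 3` and expected cost at most `T`, satisfies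
`T ≥ 10 ^ (-6) * min (n ^ 2 / κ ^ 2) (√(n N / (κ Δ)))`. -/
theorem result {ι : Type} {K : ι → Type} [∀ i, Field (K i)] {n κ Δ N : ℕ} {T : ℝ}
    (hn : 1000 ≤ n) (hκ : 1 ≤ κ) (hΔ : 1 ≤ Δ) (hN : n ^ 3 ≤ N) (hΔN : 10 ^ 6 * Δ ≤ N)
    (hK : ∀ i, ∀ k : ℕ, 0 < k → k < N → (k : K i) ≠ 0) {Ω : Type} [MeasurableSpace Ω]
    (μ : Measure Ω) [IsProbabilityMeasure μ] (p : Ω → Prog K n) (h : Solves N κ Δ T μ p) :
    min ((n : ℝ) ^ 2 / κ ^ 2) (√(n * N / (κ * Δ))) ≤ 10 ^ 6 * T := by
  rcases lt_or_ge 0 T with hT | hT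
  · exact core hn hκ hΔ hN hΔN hK μ p h hT
  · exfalso
    have h1 : ∀ ε : ℝ, 0 < ε →
        min ((n : ℝ) ^ 2 / κ ^ 2) (√(n * N / (κ * Δ))) ≤ 10 ^ 6 * ε := by
      intro ε hε
      refine core hn hκ hΔ hN hΔN hK μ p ⟨h.uses, h.measurable_cost, h.measurable_answer,
        fun x hx => (h.cost_le x hx).trans (ENNReal.ofReal_le_ofReal (hT.trans hε.le)),
        h.error_le⟩ hε
    have hn0 : (0 : ℝ) < n := by
      have : 0 < n := by omega
      exact_mod_cast this
    have hN0 : (0 : ℝ) < N := by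
      have : 0 < n ^ 3 := pow_pos (by omega) 3
      exact_mod_cast this.trans_le hN
    have hκ0 : (0 : ℝ) < κ := by exact_mod_cast hκ
    have hΔ0 : (0 : ℝ) < Δ := by exact_mod_cast hΔ
    have h2 : 0 < min ((n : ℝ) ^ 2 / κ ^ 2) (√(n * N / (κ * Δ))) := by
      apply lt_min (by positivity)
      apply Real.sqrt_pos.2
      positivity
    have h3 := h1 (min ((n : ℝ) ^ 2 / κ ^ 2) (√(n * N / (κ * Δ))) / (2 * 10 ^ 6)) (by positivity)
    linarith

end Pool.Agent.Results.MP_13bec0_lc.ArithmeticHashing
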