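import Mathlib
import Pool.Agent.J4.H80.Gen

/-!
# Hashing of affine forms does not solve 3SUM in subquadratic time

A hashing algorithm computes affine forms in the `n` input numbers, one after the other, and it sees,
for free, all the equalities among the values computed so far; it has no other access to the input.
We prove that a randomized hashing algorithm with bounded error for the 3SUM problem on inputs in
`[-n ^ 3, n ^ 3]` computes at least a constant times `n ^ 2 / √κ` forms, if each form has at most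
`κ` variables.
-/

set_option autoImplicit false

open Finset MeasureTheory
open scoped ENNReal

namespace Pool.Agent.Results.MP_13bec0_lc.GenericHashing

/-- An affine form in `n` variables with real coefficients. -/
structure Form (n : ℕ) where
  /-- the coefficients of the variables -/
  coef : Fin n → ℝ
  /-- the constant term -/
  const : ℝ

/-- The value of an affine form at an integer input. -/
noncomputable def Form.eval {n : ℕ} (u : Form n) (x : Fin n → ℤ) : ℝ :=
  ∑ i, u.coef i * (x i : ℝ) + u.const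

/-- The number of variables which occur in a form. -/
noncomputable def Form.vars {n : ℕ} (u : Form n) : ℕ := Nat.card {i // u.coef i ≠ 0}

/-- Deterministic hashing algorithms: such an algorithm stops with an answer, or it computes the
value of an affine form and continues according to the answer `e : ℕ → Bool` of the hash table,
where `e s` says whether the new value is equal to the value computed in step `s`. -/
inductive Prog (n : ℕ) : Type
  | out (b : Bool) : Prog n
  | step (u : Form n) (next : (ℕ → Bool) → Prog n) : Prog n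

/-- All the forms of the algorithm have at most `κ` variables. -/
def Prog.Arity {n : ℕ} (κ : ℕ) : Prog n → Prop
  | .out _ => True
  | .step u next => u.vars ≤ κ ∧ ∀ e, (next e).Arity κ

open Classical in
/-- The answer of the hash table: which of the earlier values (those of the forms in `h`) are equal
to the value of `u`. -/
noncomputable def lookup {n : ℕ} (h : List (Form n)) (u : Form n) (x : Fin n → ℤ) (s : ℕ) : Bool :=
  decide (∃ v, h[s]? = some v ∧ v.eval x = u.eval x)

/-- The run on the input `x` after the forms in `h` have been computed: the list of all computed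
forms, and the answer. -/
noncomputable def Prog.run {n : ℕ} : Prog n → List (Form n) → (Fin n → ℤ) → List (Form n) × Bool
  | .out b, h, _ => (h, b)
  | .step u next, h, x => (next (lookup h u x)).run (h ++ [u]) x

/-- The number of forms computed on the input `x`. -/
noncomputable def Prog.cost {n : ℕ} (p : Prog n) (x : Fin n → ℤ) : ℕ := (p.run [] x).1.length

/-- The answer on the input `x`. -/
noncomputable def Prog.answer {n : ℕ} (p : Prog n) (x : Fin n → ℤ) : Bool := (p.run [] x).2

/-- The valid inputs: `n` distinct integers in `[-N, N]`, in any order. -/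
def Valid {n : ℕ} (N : ℕ) (x : Fin n → ℤ) : Prop :=
  Function.Injective x ∧ ∀ i, |x i| ≤ N

/-- The 3SUM question. -/
def Has3Sum {n : ℕ} (x : Fin n → ℤ) : Prop :=
  ∃ i j k, i ≠ j ∧ i ≠ k ∧ j ≠ k ∧ x i + x j = x k

/-- The randomized hashing algorithm `p` uses forms with at most `κ` variables, its expected cost is
at most `T` on each valid input, and on each valid input it answers the 3SUM question with error
probability at most `1 / 3`. -/
structure Solves {n : ℕ} (N κ : ℕ) (T : ℝ) {Ω : Type} [MeasurableSpace Ω] (μ : Measure Ω)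
    (p : Ω → Prog n) : Prop where
  arity : ∀ ω, (p ω).Arity κ
  measurable_cost : ∀ x, Valid N x → Measurable fun ω => (p ω).cost x
  measurable_answer : ∀ x, Valid N x → Measurable fun ω => (p ω).answer x
  cost_le : ∀ x, Valid N x → ∫⁻ ω, ((p ω).cost x : ℝ≥0∞) ∂μ ≤ ENNReal.ofReal T
  error_le : ∀ x, Valid N x →
    μ {ω | ¬ ((p ω).answer x = true ↔ Has3Sum x)} ≤ ENNReal.ofReal (1 / 3)

/-! ### The transcripts -/

section run

variable {n : ℕ}

lemma subset_run (p : Prog n) (x : Fin n → ℤ) (h : List (Form n)) : h ⊆ (p.run h x).1 := by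
  induction p generalizing h with
  | out b => exact fun _ hu => hu
  | step u next ih =>
    intro v hv
    exact ih _ _ (by simp [hv])

lemma run_sep (p : Prog n) (x y : Fin n → ℤ) (h : List (Form n)) :
    p.run h x = p.run h y ∨ ∃ u ∈ (p.run h x).1, ∃ v ∈ (p.run h x).1, u ∈ (p.run h y).1 ∧
      v ∈ (p.run h y).1 ∧ ¬ (u.eval x = v.eval x ↔ u.eval y = v.eval y) := by
  induction p generalizing h with
  | out b => exact Or.inl rfl
  | step u next ih =>
    by_cases he : lookup h u x = lookup h u y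
    · simp only [Prog.run]
      rw [← he]
      exact ih _ _
    · right
      obtain ⟨s, hs⟩ := Function.ne_iff.1 he
      have h1 : ¬ ((∃ v, h[s]? = some v ∧ v.eval x = u.eval x) ↔
          (∃ v, h[s]? = some v ∧ v.eval y = u.eval y)) := by
        intro h2
        apply hs
        unfold lookup
        exact decide_eq_decide.2 h2
      have h3 : ∃ v, h[s]? = some v := by
        by_contra h4
        push Not at h4
        exact h1 ⟨fun ⟨v, hv, _⟩ => absurd hv (h4 v), fun ⟨v, hv, _⟩ => absurd hv (h4 v)⟩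
      obtain ⟨v, hv⟩ := h3
      have hvh : v ∈ h := List.mem_of_getElem? hv
      have hu1 : ∀ z, u ∈ ((Prog.step u next).run h z).1 := fun z =>
        subset_run (next (lookup h u z)) z (h ++ [u]) (by simp)
      have hv1 : ∀ z, v ∈ ((Prog.step u next).run h z).1 := fun z =>
        subset_run (next (lookup h u z)) z (h ++ [u]) (by simp [hvh])
      refine ⟨v, hv1 x, u, hu1 x, hv1 y, hu1 y, ?_⟩
      intro h5
      apply h1
      constructor
      · rintro ⟨w, hw, hwe⟩
        rw [hv, Option.some.injEq] at hw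
        subst hw
        exact ⟨v, hv, h5.1 hwe⟩
      · rintro ⟨w, hw, hwe⟩
        rw [hv, Option.some.injEq] at hw
        subst hw
        exact ⟨v, hv, h5.2 hwe⟩

lemma run_arity {κ : ℕ} (p : Prog n) (hp : p.Arity κ) (x : Fin n → ℤ) (h : List (Form n))
    (hh : ∀ u ∈ h, u.vars ≤ κ) : ∀ u ∈ (p.run h x).1, u.vars ≤ κ := by
  induction p generalizing h with
  | out b => exact hh
  | step u next ih =>
    refine ih _ (hp.2 _) _ fun v hv => ?_
    rcases List.mem_append.1 hv with h1 | h1
    · exact hh v h1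
    · rw [List.mem_singleton] at h1
      rw [h1]
      exact hp.1

end run

/-! ### The hard inputs -/

section hard

open Pool.Agent.J4.H80 Pool.Agent.J4.H80.Gen Pool.Agent.J4.H80.Cover

variable {n m : ℕ}

/-- the residues modulo 16 of the three blocks -/
def rho : Fin 3 → ℕ := ![1, 4, 5]

/-- the input which belongs to `s` -/
def inp (n m : ℕ) (s : Fin 3 × Fin m → ℕ) (i : Fin n) : ℤ :=
  if h : i.val < 3 * m then 16 * ((s (finProdFinEquiv.symm ⟨i.val, h⟩) : ℕ) : ℤ) +
    (rho (finProdFinEquiv.symm ⟨i.val, h⟩).1 : ℕ) else 16 * ((i.val : ℕ) : ℤ) + 11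

/-- the positions of the three blocks -/
def emb (hm : 3 * m ≤ n) (b : Fin 3 × Fin m) : Fin n :=
  ⟨(finProdFinEquiv b).val, lt_of_lt_of_le (finProdFinEquiv b).isLt hm⟩

lemma emb_injective (hm : 3 * m ≤ n) : Function.Injective (emb hm) := by
  intro b b' h
  apply finProdFinEquiv.injective
  apply Fin.ext
  exact congrArg (fun i : Fin n => i.val) h

lemma inp_emb (hm : 3 * m ≤ n) (s : Fin 3 × Fin m → ℕ) (b : Fin 3 × Fin m) :
    inp n m s (emb hm b) = 16 * (s b : ℤ) + rho b.1 := by
  unfold inp
  have h : (emb hm b).val < 3 * m := (finProdFinEquiv b).isLt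
  rw [dif_pos h]
  have h2 : finProdFinEquiv.symm ⟨(emb hm b).val, h⟩ = b := by
    rw [Equiv.symm_apply_eq]
    rfl
  rw [h2]

lemma inp_filler (s : Fin 3 × Fin m → ℕ) {i : Fin n} (h : ¬ i.val < 3 * m) :
    inp n m s i = 16 * (i.val : ℤ) + 11 := by
  unfold inp
  rw [dif_neg h]

lemma exists_emb (hm : 3 * m ≤ n) {i : Fin n} (h : i.val < 3 * m) : ∃ b, i = emb hm b :=
  ⟨finProdFinEquiv.symm ⟨i.val, h⟩, by
    apply Fin.ext
    change i.val = (finProdFinEquiv (finProdFinEquiv.symm ⟨i.val, h⟩)).val
    rw [Equiv.apply_symm_apply]⟩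

/-- the coefficients of a form in the free numbers -/
noncomputable def cf (hm : 3 * m ≤ n) (u : Form n) (b : Fin 3 × Fin m) : ℝ :=
  16 * u.coef (emb hm b)

/-- the constant part of a form -/
noncomputable def df (n m : ℕ) (u : Form n) : ℝ := u.eval (inp n m fun _ => 0)

lemma eval_inp (hm : 3 * m ≤ n) (u : Form n) (s : Fin 3 × Fin m → ℕ) :
    u.eval (inp n m s) = ev (cf hm) (df n m) u s := by
  unfold ev df Form.eval
  have h1 : ∑ i, u.coef i * (inp n m s i : ℝ) - ∑ i, u.coef i * (inp n m (fun _ => 0) i : ℝ) =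
      ∑ b, cf hm u b * (s b : ℝ) := by
    rw [← sum_sub_distrib]
    symm
    apply Fintype.sum_of_injective (emb hm) (emb_injective hm)
    · intro i hi
      have h : ¬ i.val < 3 * m := by
        intro h
        obtain ⟨b, hb⟩ := exists_emb hm h
        exact hi ⟨b, hb.symm⟩
      rw [inp_filler s h, inp_filler _ h]
      ring
    · intro b
      rw [inp_emb, inp_emb]
      unfold cf
      push_cast
      ring
  linarith

/-- the program as an algorithm on the free numbers -/
noncomputable def alg (hm : 3 * m ≤ n) (p : Prog n) :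
    Alg (B := Fin 3 × Fin m) (cf hm) (df n m) := by
  classical
  exact
  { F := fun s => (p.run [] (inp n m s)).1.toFinset
    ans := fun s => p.answer (inp n m s)
    sep := by
      intro s t
      rcases run_sep p (inp n m s) (inp n m t) [] with h | ⟨u, hu, v, hv, hu', hv', hne⟩
      · left
        rw [h]
        refine ⟨rfl, ?_⟩
        unfold Prog.answer
        rw [h]
      · right
        refine ⟨u, by simpa using hu, v, by simpa using hv, by simpa using hu',
          by simpa using hv', ?_⟩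
        rw [← eval_inp, ← eval_inp, ← eval_inp, ← eval_inp]
        exact hne }

lemma alg_ans (hm : 3 * m ≤ n) (p : Prog n) (s : Fin 3 × Fin m → ℕ) :
    (alg hm p).ans s = p.answer (inp n m s) := rfl

lemma alg_card (hm : 3 * m ≤ n) (p : Prog n) (s : Fin 3 × Fin m → ℕ) :
    ((alg hm p).F s).card ≤ p.cost (inp n m s) := by
  classical
  exact List.toFinset_card_le _

lemma alg_arity (hm : 3 * m ≤ n) {κ : ℕ} (p : Prog n) (hp : p.Arity κ) (s : Fin 3 × Fin m → ℕ) :
    ∀ u ∈ (alg hm p).F s, (univ.filter fun b => cf hm u b ≠ 0).card ≤ κ := by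
  classical
  intro u hu
  have h1 : u ∈ (p.run [] (inp n m s)).1 := by
    have : u ∈ (p.run [] (inp n m s)).1.toFinset := hu
    simpa using this
  have h2 := run_arity p hp (inp n m s) [] (by simp) u h1
  refine le_trans ?_ h2
  unfold Form.vars
  rw [Nat.card_eq_fintype_card, Fintype.card_subtype]
  apply card_le_card_of_injOn (emb hm)
  · intro b hb
    simp only [coe_filter, mem_univ, true_and, Set.mem_ofPred_eq] at hb ⊢
    intro h
    apply hb
    unfold cf
    rw [h, mul_zero]
  · exact (emb_injective hm).injOn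

/-- the ranges of the free numbers -/
def rg (m q : ℕ) (b : Fin 3 × Fin m) : ℕ := if b.1 = 2 then 2 * q else q

lemma rg_ge (q : ℕ) (b : Fin 3 × Fin m) : q ≤ rg m q b := by
  unfold rg
  split_ifs <;> omega

/-- the free numbers of the instances with answer no -/
def No (s : Fin 3 × Fin m → ℕ) : Prop :=
  (∀ r a a', s (r, a) = s (r, a') → a = a') ∧ ∀ i j k, s (0, i) + s (1, j) ≠ s (2, k)

lemma plant_mem {q : ℕ} {s : Fin 3 × Fin m → ℕ} (hs : s ∈ box (rg m q)) (l : Lab m) :
    plant s l ∈ box (rg m q) := by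
  apply update_mem_box hs
  have h0 := mem_box.1 hs (0, l 0)
  have h1 := mem_box.1 hs (1, l 1)
  have e0 : rg m q (0, l 0) = q := by simp [rg]
  have e1 : rg m q (1, l 1) = q := by simp [rg]
  have e2 : rg m q (2, l 2) = 2 * q := by simp [rg]
  omega

lemma plant_inj {s : Fin 3 × Fin m → ℕ} (hs : No s) (l : Lab m) (r : Fin 3) (a a' : Fin m)
    (h : plant s l (r, a) = plant s l (r, a')) : a = a' := by
  unfold plant at h
  by_cases h1 : ((r, a) : Fin 3 × Fin m) = (2, l 2)
  · by_cases h2 : ((r, a') : Fin 3 × Fin m) = (2, l 2)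
    · have := h1.trans h2.symm
      simpa using this
    · rw [h1, Function.update_self, Function.update_of_ne h2] at h
      have hr : r = 2 := by simpa using congrArg Prod.fst h1
      rw [hr] at h
      exact absurd h (hs.2 _ _ _)
  · by_cases h2 : ((r, a') : Fin 3 × Fin m) = (2, l 2)
    · rw [h2, Function.update_self, Function.update_of_ne h1] at h
      have hr : r = 2 := by simpa using congrArg Prod.fst h2
      rw [hr] at h
      exact absurd h.symm (hs.2 _ _ _)
    · rw [Function.update_of_ne h1, Function.update_of_ne h2] at h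
      exact hs.1 r a a' h

/-- the shape of an entry of the input -/
lemma shape (hm : 3 * m ≤ n) (s : Fin 3 × Fin m → ℕ) (i : Fin n) :
    (∃ a, i = emb hm (0, a) ∧ inp n m s i = 16 * (s (0, a) : ℤ) + 1) ∨
    (∃ a, i = emb hm (1, a) ∧ inp n m s i = 16 * (s (1, a) : ℤ) + 4) ∨
    (∃ a, i = emb hm (2, a) ∧ inp n m s i = 16 * (s (2, a) : ℤ) + 5) ∨
    (¬ i.val < 3 * m ∧ inp n m s i = 16 * (i.val : ℤ) + 11) := by
  by_cases h : i.val < 3 * m
  · obtain ⟨⟨r, a⟩, hb⟩ := exists_emb hm h
    have h1 := inp_emb (n := n) hm s (r, a)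
    rw [← hb] at h1
    fin_cases r
    · exact Or.inl ⟨a, hb, h1⟩
    · exact Or.inr (Or.inl ⟨a, hb, h1⟩)
    · exact Or.inr (Or.inr (Or.inl ⟨a, hb, h1⟩))
  · exact Or.inr (Or.inr (Or.inr ⟨h, inp_filler s h⟩))

lemma valid_inp (hm : 3 * m ≤ n) {q N : ℕ} (hq : 33 * q ≤ N) (hq1 : 1 ≤ q) (hN : 16 * n ≤ N)
    {s : Fin 3 × Fin m → ℕ}
    (hs : s ∈ box (rg m q)) (hinj : ∀ r a a', s (r, a) = s (r, a') → a = a') :
    Valid N (inp n m s) := by
  constructor
  · intro i j hij
    rcases shape hm s i with ⟨a, hi, ei⟩ | ⟨a, hi, ei⟩ | ⟨a, hi, ei⟩ | ⟨hi, ei⟩ <;>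
    rcases shape hm s j with ⟨a', hj, ej⟩ | ⟨a', hj, ej⟩ | ⟨a', hj, ej⟩ | ⟨hj, ej⟩ <;>
    rw [ei, ej] at hij
    · have h1 : s (0, a) = s (0, a') := by omega
      rw [hi, hj, hinj _ _ _ h1]
    · omega
    · omega
    · omega
    · omega
    · have h1 : s (1, a) = s (1, a') := by omega
      rw [hi, hj, hinj _ _ _ h1]
    · omega
    · omega
    · omega
    · omega
    · have h1 : s (2, a) = s (2, a') := by omega
      rw [hi, hj, hinj _ _ _ h1]
    · omega
    · omega
    · omega
    · omega
    · apply Fin.ext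
      omega
  · intro i
    have hb : ∀ b, s b < 2 * q := by
      intro b
      have h1 := mem_box.1 hs b
      unfold rg at h1
      split_ifs at h1 <;> omega
    rw [abs_le]
    rcases shape hm s i with ⟨a, hi, ei⟩ | ⟨a, hi, ei⟩ | ⟨a, hi, ei⟩ | ⟨hi, ei⟩
    · have := hb (0, a)
      omega
    · have := hb (1, a)
      omega
    · have := hb (2, a)
      omega
    · have := i.isLt
      omega

lemma not_has3Sum (hm : 3 * m ≤ n) {s : Fin 3 × Fin m → ℕ} (hs : No s) :
    ¬ Has3Sum (inp n m s) := by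
  rintro ⟨i, j, k, _, _, _, h⟩
  rcases shape hm s i with ⟨a, hi, ei⟩ | ⟨a, hi, ei⟩ | ⟨a, hi, ei⟩ | ⟨hi, ei⟩ <;>
  rcases shape hm s j with ⟨a', hj, ej⟩ | ⟨a', hj, ej⟩ | ⟨a', hj, ej⟩ | ⟨hj, ej⟩ <;>
  rcases shape hm s k with ⟨a'', hk, ek⟩ | ⟨a'', hk, ek⟩ | ⟨a'', hk, ek⟩ | ⟨hk, ek⟩ <;>
  rw [ei, ej, ek] at h <;>
  first
  | omega
  | exact hs.2 a a' a'' (by omega)
  | exact hs.2 a' a a'' (by omega)

lemma has3Sum_plant (hm : 3 * m ≤ n) (s : Fin 3 × Fin m → ℕ) (l : Lab m) :
    Has3Sum (inp n m (plant s l)) := by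
  refine ⟨emb hm (0, l 0), emb hm (1, l 1), emb hm (2, l 2), ?_, ?_, ?_, ?_⟩
  · intro h
    have := emb_injective hm h
    simp at this
  · intro h
    have := emb_injective hm h
    simp at this
  · intro h
    have := emb_injective hm h
    simp at this
  · rw [inp_emb, inp_emb, inp_emb]
    have e0 : plant s l (0, l 0) = s (0, l 0) := by simp [plant]
    have e1 : plant s l (1, l 1) = s (1, l 1) := by simp [plant]
    have e2 : plant s l (2, l 2) = s (0, l 0) + s (1, l 1) := by simp [plant]
    rw [e0, e1, e2]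
    simp [rho]
    ring

/-- few free numbers have a coincidence -/
lemma card_coll (q : ℕ) (r : Fin 3) (a a' : Fin m) (h : a ≠ a') :
    q * ((box (rg m q)).filter fun s => s (r, a) = s (r, a')).card ≤ (box (rg m q)).card := by
  refine le_trans (Nat.mul_le_mul_right _ (rg_ge q (r, a))) ?_
  refine (fiber_le (R := rg m q) (r, a) 1 _ (filter_subset _ _) ?_).trans (by simp)
  intro s _
  rw [card_le_one]
  intro z hz z' hz'
  simp only [mem_filter] at hz hz'
  have hne : ((r, a') : Fin 3 × Fin m) ≠ (r, a) := by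
    intro h'
    simp only [Prod.mk.injEq, true_and] at h'
    exact h h'.symm
  have e1 := hz.2.2
  have e2 := hz'.2.2
  rw [Function.update_self, Function.update_of_ne hne] at e1 e2
  omega

lemma card_sol (q : ℕ) (i j k : Fin m) :
    2 * q * ((box (rg m q)).filter fun s => s (0, i) + s (1, j) = s (2, k)).card ≤
      (box (rg m q)).card := by
  have e : rg m q (2, k) = 2 * q := by simp [rg]
  rw [← e]
  refine (fiber_le (R := rg m q) (2, k) 1 _ (filter_subset _ _) ?_).trans (by simp)
  intro s _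
  rw [card_le_one]
  intro z hz z' hz'
  simp only [mem_filter] at hz hz'
  have e1 := hz.2.2
  have e2 := hz'.2.2
  rw [Function.update_self, Function.update_of_ne (by simp), Function.update_of_ne (by simp)]
    at e1 e2
  omega

open Classical in
/-- most choices of the free numbers give an instance with answer no -/
lemma card_no (q : ℕ) :
    2 * q * (box (rg m q)).card ≤ 2 * q * ((box (rg m q)).filter fun s => No s).card +
      (6 * m ^ 2 + m ^ 3) * (box (rg m q)).card := by
  set S1 : Finset (Fin 3 × Fin m × Fin m) := univ.filter fun x => x.2.1 ≠ x.2.2 with hS1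
  have h1 : (box (rg m q)).filter (fun s => ¬ No s) ⊆
      (S1.biUnion fun x => (box (rg m q)).filter fun s => s (x.1, x.2.1) = s (x.1, x.2.2)) ∪
      ((univ : Finset (Fin m × Fin m × Fin m)).biUnion fun x =>
        (box (rg m q)).filter fun s => s (0, x.1) + s (1, x.2.1) = s (2, x.2.2)) := by
    intro s hs
    obtain ⟨hs1, hs2⟩ := mem_filter.1 hs
    rw [mem_union, mem_biUnion, mem_biUnion]
    unfold No at hs2
    rw [not_and_or] at hs2
    rcases hs2 with h | h
    · left
      push Not at h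
      obtain ⟨r, a, a', h2, h3⟩ := h
      exact ⟨(r, a, a'), mem_filter.2 ⟨mem_univ _, h3⟩, mem_filter.2 ⟨hs1, h2⟩⟩
    · right
      push Not at h
      obtain ⟨i, j, k, h2⟩ := h
      exact ⟨(i, j, k), mem_univ _, mem_filter.2 ⟨hs1, h2⟩⟩
  have h2 : 2 * q * ((box (rg m q)).filter (fun s => ¬ No s)).card ≤
      (6 * m ^ 2 + m ^ 3) * (box (rg m q)).card := by
    refine (Nat.mul_le_mul_left _ ((card_le_card h1).trans (card_union_le _ _))).trans ?_
    rw [mul_add, add_mul]
    apply add_le_add
    · refine (Nat.mul_le_mul_left _ card_biUnion_le).trans ?_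
      rw [mul_sum]
      have h3 : S1.card ≤ 3 * m ^ 2 := by
        refine (card_le_univ S1).trans ?_
        simp [sq]
      calc _ ≤ ∑ x ∈ S1, 2 * (box (rg m q)).card := by
            refine sum_le_sum fun x hx => ?_
            rw [mul_assoc]
            exact Nat.mul_le_mul_left 2 (card_coll q x.1 x.2.1 x.2.2 (mem_filter.1 hx).2)
        _ = S1.card * (2 * (box (rg m q)).card) := by rw [sum_const, smul_eq_mul]
        _ ≤ 3 * m ^ 2 * (2 * (box (rg m q)).card) := Nat.mul_le_mul_right _ h3
        _ = _ := by ring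
    · refine (Nat.mul_le_mul_left _ card_biUnion_le).trans ?_
      rw [mul_sum]
      calc _ ≤ ∑ x : Fin m × Fin m × Fin m, (box (rg m q)).card :=
            sum_le_sum fun x _ => card_sol q x.1 x.2.1 x.2.2
        _ = m ^ 3 * (box (rg m q)).card := by
          rw [sum_const, smul_eq_mul]
          congr 1
          simp
          ring
  have h3 := card_filter_add_card_filter_not (s := box (rg m q)) (fun s => No s)
  calc 2 * q * (box (rg m q)).card = 2 * q * ((box (rg m q)).filter fun s => No s).card +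
        2 * q * ((box (rg m q)).filter (fun s => ¬ No s)).card := by rw [← mul_add, h3]
    _ ≤ _ := Nat.add_le_add_left h2 _

/-- averaging over the random choices -/
lemma average {ι Ω : Type} [MeasurableSpace Ω] (μ : Measure Ω) [IsProbabilityMeasure μ]
    (S : Finset ι) (E : ι → Set Ω) (hE : ∀ i ∈ S, MeasurableSet (E i)) (K : ℝ) (π : ι → ℝ)
    (hK : ∀ ω, K ≤ ∑ i ∈ S, (E i).indicator (fun _ => (1 : ℝ)) ω)
    (hμ : ∀ i ∈ S, μ.real (E i) ≤ π i) : K ≤ ∑ i ∈ S, π i := by
  have hint : ∀ i ∈ S, Integrable ((E i).indicator (fun _ => (1 : ℝ))) μ := fun i hi =>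
    (integrable_const (1 : ℝ)).indicator (hE i hi)
  have h1 : ∫ _ω, K ∂μ ≤ ∫ ω, ∑ i ∈ S, (E i).indicator (fun _ => (1 : ℝ)) ω ∂μ :=
    integral_mono (integrable_const K) (integrable_finsetSum S hint) hK
  rw [integral_finsetSum S hint] at h1
  have h2 : ∑ i ∈ S, ∫ ω, (E i).indicator (fun _ => (1 : ℝ)) ω ∂μ ≤ ∑ i ∈ S, π i := by
    refine sum_le_sum fun i hi => ?_
    rw [integral_indicator_const _ (hE i hi)]
    simpa using hμ i hi
  have h3 : ∫ _ω, K ∂μ = K := by simp
  linarith

/-- the numerical part -/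
lemma numeric (n m q ℓ κ T' T N V B : ℝ) (hn : 1000 ≤ n) (hm1 : n - 5 ≤ 6 * m) (hm2 : 6 * m ≤ n)
    (hN : n ^ 3 ≤ N) (hq1 : N - 32 ≤ 33 * q) (hℓ1 : q - 99 ≤ 100 * ℓ) (hℓ2 : 100 * ℓ ≤ q)
    (hκ : 1 ≤ κ) (hT : 0 < T) (hT'0 : 0 ≤ T') (hT' : T' ≤ 20 * T) (hB : 0 < B)
    (hV : 2 * q * B ≤ 2 * q * V + (6 * m ^ 2 + m ^ 3) * B)
    (h1 : 10 ^ 7 * T < n ^ 2) (h2 : 10 ^ 14 * T ^ 2 < n * N / κ)
    (h : V * m ^ 3 - B * m ^ 3 * (2 * κ * T' ^ 2 / (ℓ * m) + 3 * (2 * ℓ + 1) / q +
      1728 * T' / m ^ 2 + ℓ / (q - ℓ)) ≤ V * m ^ 3 * (1 / 3 + 1 / 3 + 1 / 20)) : False := by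
  have hn0 : 0 < n := by linarith
  have hm0 : 165 ≤ m := by linarith
  have hn2 : 1000 * 1000 ≤ n ^ 2 := by nlinarith
  have hn3 : 1000 * n ^ 2 ≤ n ^ 3 := by nlinarith
  have hN0 : 10 ^ 9 ≤ N := by linarith
  have hq0 : N / 34 ≤ q := by linarith
  have hq00 : 0 < q := by linarith
  have hℓ0 : N / 3500 ≤ ℓ := by linarith
  have hℓ00 : 0 < ℓ := by linarith
  have hm3 : 0 < m ^ 3 := by positivity
  -- the four terms
  have a1 : 2 * κ * T' ^ 2 / (ℓ * m) ≤ 1 / 1000 := by
    have h3 : T' ^ 2 ≤ 400 * T ^ 2 := by nlinarith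
    have h4 : κ * (10 ^ 14 * T ^ 2) < n * N := by
      rw [lt_div_iff₀ (by linarith)] at h2
      linarith
    have h5 : κ * T' ^ 2 ≤ κ * (400 * T ^ 2) := mul_le_mul_of_nonneg_left h3 (by linarith)
    have h6 : n * N / 22000 ≤ ℓ * m := by
      calc n * N / 22000 ≤ (N / 3500) * (n * (10 / 61)) := by
            have : 0 < n * N := by positivity
            have e : (N / 3500) * (n * (10 / 61)) = n * N / 21350 := by ring
            rw [e]
            apply div_le_div_of_nonneg_left this.le (by norm_num) (by norm_num)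
        _ ≤ ℓ * m := mul_le_mul hℓ0 (by linarith) (by positivity) hℓ00.le
    rw [div_le_iff₀ (by positivity)]
    nlinarith
  have a2 : 3 * (2 * ℓ + 1) / q ≤ 61 / 1000 := by
    rw [div_le_iff₀ hq00]
    linarith
  have a3 : 1728 * T' / m ^ 2 ≤ 13 / 100 := by
    rw [div_le_iff₀ (by positivity)]
    have h3 : T' ≤ 20 * (n ^ 2 / 10 ^ 7) := by linarith
    have h4 : (n * (10 / 61)) ^ 2 ≤ m ^ 2 := by
      apply pow_le_pow_left₀ (by positivity)
      linarith
    have h5 : (n * (10 / 61)) ^ 2 = n ^ 2 * (100 / 3721) := by ring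
    rw [h5] at h4
    linarith
  have a4 : ℓ / (q - ℓ) ≤ 11 / 1000 := by
    rw [div_le_iff₀ (by linarith)]
    linarith
  have hV' : 9 / 10 * B ≤ V := by
    have h3 : (6 * m ^ 2 + m ^ 3) ≤ q / 5 := by
      have h4 : m ^ 2 ≤ (n / 6) ^ 2 := pow_le_pow_left₀ (by linarith) (by linarith) 2
      have h5 : m ^ 3 ≤ (n / 6) ^ 3 := pow_le_pow_left₀ (by linarith) (by linarith) 3
      have e4 : (n / 6) ^ 2 = n ^ 2 / 36 := by ring
      have e5 : (n / 6) ^ 3 = n ^ 3 / 216 := by ring
      rw [e4] at h4
      rw [e5] at h5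
      linarith
    have h6 : (6 * m ^ 2 + m ^ 3) * B ≤ q / 5 * B := mul_le_mul_of_nonneg_right h3 hB.le
    have h7 : 2 * q * (9 / 10 * B) ≤ 2 * q * V := by linarith
    exact le_of_mul_le_mul_left h7 (by positivity)
  have hδ : 2 * κ * T' ^ 2 / (ℓ * m) + 3 * (2 * ℓ + 1) / q + 1728 * T' / m ^ 2 + ℓ / (q - ℓ) ≤
      21 / 100 := by linarith
  have h3 : B * m ^ 3 * (2 * κ * T' ^ 2 / (ℓ * m) + 3 * (2 * ℓ + 1) / q + 1728 * T' / m ^ 2 +
      ℓ / (q - ℓ)) ≤ B * m ^ 3 * (21 / 100) := mul_le_mul_of_nonneg_left hδ (by positivity)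
  have h4 : 9 / 10 * B * m ^ 3 ≤ V * m ^ 3 := mul_le_mul_of_nonneg_right hV' hm3.le
  have h5 : 0 < B * m ^ 3 := by positivity
  linarith

/-- the events of the averaging argument -/
def event {Ω : Type} (n m : ℕ) (p : Ω → Prog n) (T : ℕ)
    (x : ((Fin 3 × Fin m → ℕ) × Lab m) × Fin 3) : Set Ω :=
  ![{ω | (p ω).answer (inp n m x.1.1) = true},
    {ω | (p ω).answer (inp n m (plant x.1.1 x.1.2)) = false},
    {ω | T < (p ω).cost (inp n m x.1.1)}] x.2

theorem core {n κ N : ℕ} {T : ℝ} (hn : 1000 ≤ n) (hκ : 1 ≤ κ) (hN : n ^ 3 ≤ N) {Ω : Type}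
    [MeasurableSpace Ω] (μ : Measure Ω) [IsProbabilityMeasure μ] (p : Ω → Prog n)
    (h : Solves N κ T μ p) (hT : 0 < T) : min ((n : ℝ) ^ 2) (√(n * N / κ)) ≤ 10 ^ 7 * T := by
  classical
  by_contra hcon
  rw [not_le] at hcon
  obtain ⟨h1, h2⟩ := lt_min_iff.1 hcon
  have h2' : 10 ^ 14 * T ^ 2 < n * N / κ := by
    have h3 := (Real.lt_sqrt (by positivity)).1 h2
    linarith
  obtain ⟨m, hmdef⟩ : ∃ m, m = n / 6 := ⟨_, rfl⟩
  obtain ⟨q, hqdef⟩ : ∃ q, q = N / 33 := ⟨_, rfl⟩
  obtain ⟨ℓ, hℓdef⟩ : ∃ ℓ, ℓ = q / 100 := ⟨_, rfl⟩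
  obtain ⟨T', hT'def⟩ : ∃ T', T' = ⌊20 * T⌋₊ := ⟨_, rfl⟩
  have hm : 3 * m ≤ n := by omega
  have hm0 : 0 < m := by omega
  have hn2 : 1000 * n ^ 2 ≤ n ^ 3 := by
    have : n ^ 3 = n * n ^ 2 := by ring
    rw [this]
    exact Nat.mul_le_mul_right _ hn
  have hn1 : 1000 * n ≤ n ^ 2 := by
    have : n ^ 2 = n * n := by ring
    rw [this]
    exact Nat.mul_le_mul_right _ hn
  have hNbig : 16 * n ≤ N := by omega
  have hN9 : 10 ^ 9 ≤ N := by omega
  have hq33 : 33 * q ≤ N := by omega
  have hq1 : 1 ≤ q := by omega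
  have hℓ0 : 0 < ℓ := by omega
  have hℓq : ℓ < q := by omega
  have hT'20 : (T' : ℝ) ≤ 20 * T := by
    rw [hT'def]
    exact Nat.floor_le (by positivity)
  have hT'm : T' ≤ m ^ 2 := by
    have h3 : (T' : ℝ) ≤ (m : ℝ) ^ 2 := by
      have h4 : (n : ℝ) - 5 ≤ 6 * m := by
        have : n ≤ 6 * m + 5 := by omega
        have : (n : ℝ) ≤ 6 * m + 5 := by exact_mod_cast this
        linarith
      have h5 : (1000 : ℝ) ≤ n := by exact_mod_cast hn
      have h6 : ((n : ℝ) / 7) ^ 2 ≤ (m : ℝ) ^ 2 := pow_le_pow_left₀ (by positivity) (by linarith) 2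
      have h7 : ((n : ℝ) / 7) ^ 2 = n ^ 2 / 49 := by ring
      rw [h7] at h6
      linarith
    exact_mod_cast h3
  -- the counting argument for each program
  have hbad := fun ω => card_Bad (alg hm (p ω)) κ T' ℓ q
    (fun s => alg_arity hm (p ω) (h.arity ω) s) (rg m q) (rg_ge q) hT'm hℓ0 hℓq hm0
  set V : Finset (Fin 3 × Fin m → ℕ) := (box (rg m q)).filter fun s => No s with hVdef
  set B : ℝ := ((box (rg m q)).card : ℝ) with hBdef
  set δ : ℝ := 2 * κ * T' ^ 2 / (ℓ * m) + 3 * (2 * ℓ + 1) / q + 1728 * T' / m ^ 2 +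
    ℓ / ((q : ℝ) - ℓ) with hδ
  have hVval : ∀ s ∈ V, Valid N (inp n m s) := fun s hs =>
    valid_inp hm hq33 hq1 hNbig (mem_filter.1 hs).1 (mem_filter.1 hs).2.1
  have hVval' : ∀ s ∈ V, ∀ l, Valid N (inp n m (plant s l)) := fun s hs l =>
    valid_inp hm hq33 hq1 hNbig (plant_mem (mem_filter.1 hs).1 l)
      (plant_inj (mem_filter.1 hs).2 l)
  have key : (V.card : ℝ) * m ^ 3 - B * m ^ 3 * δ ≤
      ∑ x ∈ (V ×ˢ (univ : Finset (Lab m))) ×ˢ (univ : Finset (Fin 3)),
        (![1 / 3, 1 / 3, 1 / 20] x.2 : ℝ) := by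
    apply average μ _ (event n m p T')
    · rintro ⟨⟨s, l⟩, t⟩ hx
      have hs : s ∈ V := by
        simp only [mem_product] at hx
        exact hx.1.1
      fin_cases t
      · exact h.measurable_answer _ (hVval s hs) (measurableSet_singleton true)
      · exact h.measurable_answer _ (hVval' s hs l) (measurableSet_singleton false)
      · exact h.measurable_cost _ (hVval s hs) measurableSet_Ioi
    · intro ω
      rw [sum_product]
      have h3 : ∀ x ∈ V ×ˢ (univ : Finset (Lab m)), (1 : ℝ) ≤
          ∑ t : Fin 3, (event n m p T' (x, t)).indicator (fun _ => (1 : ℝ)) ω +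
            if x ∈ Bad (alg hm (p ω)) T' (rg m q) then 1 else 0 := by
        rintro ⟨s, l⟩ hx
        have hs : s ∈ V := (mem_product.1 hx).1
        rw [Fin.sum_univ_three]
        have hnn : ∀ t : Fin 3, (0 : ℝ) ≤
            (event n m p T' ((s, l), t)).indicator (fun _ => (1 : ℝ)) ω := fun t =>
          Set.indicator_nonneg (fun _ _ => zero_le_one) ω
        have n0 := hnn 0
        have n1 := hnn 1
        have n2 := hnn 2
        have n3 : (0 : ℝ) ≤ if (s, l) ∈ Bad (alg hm (p ω)) T' (rg m q) then 1 else 0 := by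
          split_ifs <;> norm_num
        by_cases c0 : (p ω).answer (inp n m s) = true
        · have : (event n m p T' ((s, l), 0)).indicator (fun _ => (1 : ℝ)) ω = 1 :=
            Set.indicator_of_mem (show ω ∈ event n m p T' ((s, l), 0) from c0) _
          linarith
        by_cases c1 : (p ω).answer (inp n m (plant s l)) = false
        · have : (event n m p T' ((s, l), 1)).indicator (fun _ => (1 : ℝ)) ω = 1 :=
            Set.indicator_of_mem (show ω ∈ event n m p T' ((s, l), 1) from c1) _
          linarith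
        by_cases c2 : T' < (p ω).cost (inp n m s)
        · have : (event n m p T' ((s, l), 2)).indicator (fun _ => (1 : ℝ)) ω = 1 :=
            Set.indicator_of_mem (show ω ∈ event n m p T' ((s, l), 2) from c2) _
          linarith
        have c3 : (s, l) ∈ Bad (alg hm (p ω)) T' (rg m q) := by
          rw [Bad, mem_filter]
          refine ⟨mem_product.2 ⟨(mem_filter.1 hs).1, mem_univ _⟩,
            (alg_card hm (p ω) s).trans (not_lt.1 c2), ?_⟩
          intro hsame
          have h4 := hsame.2.1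
          simp only at h4
          rw [alg_ans, alg_ans] at h4
          rw [h4] at c0
          exact c1 (by simpa using c0)
        rw [if_pos c3]
        linarith
      have h4 := sum_le_sum h3
      rw [sum_add_distrib, sum_const, card_product, nsmul_eq_mul, mul_one] at h4
      have h5 : ∑ x ∈ V ×ˢ (univ : Finset (Lab m)),
          (if x ∈ Bad (alg hm (p ω)) T' (rg m q) then (1 : ℝ) else 0) ≤ B * m ^ 3 * δ := by
        rw [sum_ite, sum_const_zero, add_zero, sum_const, nsmul_eq_mul, mul_one]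
        refine le_trans ?_ (hbad ω)
        exact_mod_cast card_le_card fun x hx => (mem_filter.1 hx).2
      have h6 : ((V.card * (univ : Finset (Lab m)).card : ℕ) : ℝ) = V.card * m ^ 3 := by
        push_cast
        simp
      rw [h6] at h4
      linarith
    · rintro ⟨⟨s, l⟩, t⟩ hx
      have hs : s ∈ V := by
        simp only [mem_product] at hx
        exact hx.1.1
      fin_cases t
      · change μ.real {ω | (p ω).answer (inp n m s) = true} ≤ 1 / 3
        have h3 := h.error_le _ (hVval s hs)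
        have h4 : {ω | ¬ ((p ω).answer (inp n m s) = true ↔ Has3Sum (inp n m s))} =
            {ω | (p ω).answer (inp n m s) = true} := by
          ext ω
          have := not_has3Sum hm (mem_filter.1 hs).2
          simp [this]
        rw [h4] at h3
        exact ENNReal.toReal_le_of_le_ofReal (by norm_num) h3
      · change μ.real {ω | (p ω).answer (inp n m (plant s l)) = false} ≤ 1 / 3
        have h3 := h.error_le _ (hVval' s hs l)
        have h4 : {ω | ¬ ((p ω).answer (inp n m (plant s l)) = true ↔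
            Has3Sum (inp n m (plant s l)))} =
            {ω | (p ω).answer (inp n m (plant s l)) = false} := by
          ext ω
          have := has3Sum_plant hm s l
          simp [this]
        rw [h4] at h3
        exact ENNReal.toReal_le_of_le_ofReal (by norm_num) h3
      · change μ.real {ω | T' < (p ω).cost (inp n m s)} ≤ 1 / 20
        have h3 := h.cost_le _ (hVval s hs)
        have h4 := meas_ge_le_lintegral_div (μ := μ)
          (f := fun ω => (((p ω).cost (inp n m s) : ℕ) : ℝ≥0∞))
          (by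
            have := h.measurable_cost _ (hVval s hs)
            exact (measurable_from_top.comp this).aemeasurable)
          (ε := ENNReal.ofReal (20 * T)) (by
            rw [Ne, ENNReal.ofReal_eq_zero]
            push Not
            positivity) ENNReal.ofReal_ne_top
        have h5 : {ω | T' < (p ω).cost (inp n m s)} ⊆
            {ω | ENNReal.ofReal (20 * T) ≤ (((p ω).cost (inp n m s) : ℕ) : ℝ≥0∞)} := by
          intro ω hω
          have hω' : ⌊20 * T⌋₊ < (p ω).cost (inp n m s) := by
            rw [← hT'def]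
            exact hω
          have h6 := (Nat.floor_lt (by positivity)).1 hω'
          change ENNReal.ofReal (20 * T) ≤ (((p ω).cost (inp n m s) : ℕ) : ℝ≥0∞)
          rw [← ENNReal.ofReal_natCast]
          exact ENNReal.ofReal_le_ofReal h6.le
        have h6 : μ {ω | T' < (p ω).cost (inp n m s)} ≤ ENNReal.ofReal (1 / 20) := by
          refine (measure_mono h5).trans (h4.trans ?_)
          refine (ENNReal.div_le_div_right h3 _).trans ?_
          rw [← ENNReal.ofReal_div_of_pos (by positivity)]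
          apply ENNReal.ofReal_le_ofReal
          rw [div_le_div_iff₀ (by positivity) (by norm_num)]
          linarith
        exact ENNReal.toReal_le_of_le_ofReal (by norm_num) h6
  have hsum : ∑ x ∈ (V ×ˢ (univ : Finset (Lab m))) ×ˢ (univ : Finset (Fin 3)),
        (![1 / 3, 1 / 3, 1 / 20] x.2 : ℝ) = V.card * m ^ 3 * (1 / 3 + 1 / 3 + 1 / 20) := by
    rw [sum_product]
    simp only [Fin.sum_univ_three]
    rw [sum_const, card_product, nsmul_eq_mul]
    push_cast
    simp
  rw [hsum] at key
  have hB0 : 0 < B := by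
    rw [hBdef]
    have : (fun _ => 0 : Fin 3 × Fin m → ℕ) ∈ box (rg m q) := by
      rw [mem_box]
      intro b
      exact lt_of_lt_of_le (by omega) (rg_ge q b)
    exact_mod_cast card_pos.2 ⟨_, this⟩
  have hno := card_no (m := m) q
  have hno' : 2 * (q : ℝ) * B ≤ 2 * q * V.card + (6 * m ^ 2 + m ^ 3) * B := by
    have : ((2 * q * (box (rg m q)).card : ℕ) : ℝ) ≤
      ((2 * q * ((box (rg m q)).filter fun s => No s).card +
      (6 * m ^ 2 + m ^ 3) * (box (rg m q)).card : ℕ) : ℝ) := by exact_mod_cast hno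
    push_cast at this
    exact this
  have c1 : (n : ℝ) - 5 ≤ 6 * m := by
    have : n ≤ 6 * m + 5 := by omega
    have : (n : ℝ) ≤ 6 * m + 5 := by exact_mod_cast this
    linarith
  have c2 : 6 * (m : ℝ) ≤ n := by
    have : 6 * m ≤ n := by omega
    exact_mod_cast this
  have c3 : (N : ℝ) - 32 ≤ 33 * q := by
    have : N ≤ 33 * q + 32 := by omega
    have : (N : ℝ) ≤ 33 * q + 32 := by exact_mod_cast this
    linarith
  have c4 : (q : ℝ) - 99 ≤ 100 * ℓ := by
    have : q ≤ 100 * ℓ + 99 := by omega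
    have : (q : ℝ) ≤ 100 * ℓ + 99 := by exact_mod_cast this
    linarith
  have c5 : 100 * (ℓ : ℝ) ≤ q := by
    have : 100 * ℓ ≤ q := by omega
    exact_mod_cast this
  exact numeric n m q ℓ κ T' T N V.card B (by exact_mod_cast hn) c1 c2 (by exact_mod_cast hN)
    c3 c4 c5 (by exact_mod_cast hκ) hT (Nat.cast_nonneg _) hT'20 hB0 hno' h1 h2' key

end hard

/-- **Main theorem.** A randomized hashing algorithm with forms in at most `κ` variables which
solves 3SUM on `n` distinct integers in `[-N, N]`, where `N ≥ n ^ 3`, with error probability at most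
`1 / 3` and expected cost at most `T`, satisfies `T ≥ 10 ^ (-7) * min (n ^ 2) (√(n N / κ))`. -/
theorem result {n κ N : ℕ} {T : ℝ} (hn : 1000 ≤ n) (hκ : 1 ≤ κ) (hN : n ^ 3 ≤ N) {Ω : Type}
    [MeasurableSpace Ω] (μ : Measure Ω) [IsProbabilityMeasure μ] (p : Ω → Prog n)
    (h : Solves N κ T μ p) : min ((n : ℝ) ^ 2) (√(n * N / κ)) ≤ 10 ^ 7 * T := by
  rcases lt_or_ge 0 T with hT | hT
  · exact core hn hκ hN μ p h hT
  · exfalso
    have h1 : ∀ ε : ℝ, 0 < ε → min ((n : ℝ) ^ 2) (√(n * N / κ)) ≤ 10 ^ 7 * ε := by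
      intro ε hε
      refine core hn hκ hN μ p ⟨h.arity, h.measurable_cost, h.measurable_answer, fun x hx =>
        (h.cost_le x hx).trans (ENNReal.ofReal_le_ofReal (hT.trans hε.le)), h.error_le⟩ hε
    have hn0 : (0 : ℝ) < n := by
      have : 0 < n := by omega
      exact_mod_cast this
    have hN0 : (0 : ℝ) < N := by
      have : 0 < n ^ 3 := pow_pos (by omega) 3
      exact_mod_cast this.trans_le hN
    have hκ0 : (0 : ℝ) < κ := by exact_mod_cast hκ
    have h2 : 0 < min ((n : ℝ) ^ 2) (√(n * N / κ)) := by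
      apply lt_min (by positivity)
      apply Real.sqrt_pos.2
      positivity
    have h3 := h1 (min ((n : ℝ) ^ 2) (√(n * N / κ)) / (2 * 10 ^ 7)) (by positivity)
    linarith

end Pool.Agent.Results.MP_13bec0_lc.GenericHashing
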