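import Mathlib
import Pool.Agent.J4.H80.HybModel
import Pool.Agent.J4.H80.HybCore

/-!
# Hashing and comparing do not solve 3SUM in subquadratic time

The algorithms of the model in `Pool.Agent.J4.H80.HybModel` compute values of affine forms with at
most `κ` variables and see all equalities among these values for free; moreover they compare input
numbers and sums of two input numbers. We prove that a randomized algorithm of this kind with bounded
error performs at least a constant times `min (n ^ 2 / κ ^ 2) (√(N / κ))` operations for 3SUM on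
`n` integers in `[-N, N]`.
-/

set_option autoImplicit false

open Finset MeasureTheory
open scoped ENNReal

namespace Pool.Agent.Results.MP_13bec0_lc.HashAndCompare

open Pool.Agent.J4.H80 Pool.Agent.J4.H80.HashComp Pool.Agent.J4.H80.Gen Pool.Agent.J4.H80.Hyb
  Pool.Agent.J4.H80.Cover

lemma numeric (n m q ℓ κ T' T N : ℝ) (hn : 1000 ≤ n) (hm1 : n - 2 ≤ 3 * m)
    (hN : 10 ^ 7 * n ≤ N) (hq1 : N ≤ 1440 * n * (q + 1))
    (hℓ1 : q - 99 ≤ 100 * ℓ) (hℓ2 : 100 * ℓ ≤ q)
    (hκ : 1 ≤ κ) (hT : 0 < T) (hT'0 : 0 ≤ T') (hT' : T' ≤ 20 * T)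
    (h1 : 10 ^ 5 * T < n ^ 2 / κ ^ 2) (h2 : 10 ^ 10 * T ^ 2 < N / κ)
    (h : (17 / 60 : ℝ) ≤ 2 * (2 * κ * T' ^ 2) / (ℓ * m) + 3 * (2 * ℓ + 1) / q + 2 * ℓ / q +
      2 * (T' + κ ^ 2 * T') / m ^ 2 + ℓ / (q - ℓ)) : False := by
  have hn0 : 0 < n := by linarith
  have hm0 : 332 ≤ m := by linarith
  have hq0 : 6900 ≤ q := by
    by_contra hcon
    push Not at hcon
    have : 1440 * n * (q + 1) < 1440 * n * 6901 := by
      apply mul_lt_mul_of_pos_left (by linarith) (by positivity)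
    linarith
  have hq00 : 0 < q := by linarith
  have hℓ0 : q / 102 ≤ ℓ := by linarith
  have hℓ00 : 0 < ℓ := by linarith
  have hN0 : 0 < N := by linarith
  have hqn : N / 1441 ≤ n * q := by nlinarith
  have a1 : 2 * (2 * κ * T' ^ 2) / (ℓ * m) ≤ 8 / 100 := by
    have h3 : T' ^ 2 ≤ 400 * T ^ 2 := by nlinarith
    have h4 : κ * (10 ^ 10 * T ^ 2) < N := by
      rw [lt_div_iff₀ (by linarith)] at h2
      linarith
    have h5 : κ * T' ^ 2 ≤ κ * (400 * T ^ 2) := mul_le_mul_of_nonneg_left h3 (by linarith)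
    have h6 : N / 450000 ≤ ℓ * m := by
      have h7 : (q / 102) * (n / 3.01) ≤ ℓ * m :=
        mul_le_mul hℓ0 (by norm_num; linarith) (by positivity) hℓ00.le
      have h8 : (q / 102) * (n / 3.01) = n * q * (100 / 30702) := by ring
      rw [h8] at h7
      linarith
    rw [div_le_iff₀ (by positivity)]
    linarith
  have a2 : 3 * (2 * ℓ + 1) / q ≤ 61 / 1000 := by
    rw [div_le_iff₀ hq00]
    linarith
  have a3 : 2 * ℓ / q ≤ 20 / 1000 := by
    rw [div_le_iff₀ hq00]
    linarith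
  have a4 : 2 * (T' + κ ^ 2 * T') / m ^ 2 ≤ 1 / 100 := by
    rw [div_le_iff₀ (by positivity)]
    have hκ2 : 1 ≤ κ ^ 2 := by nlinarith
    have h3 : κ ^ 2 * (10 ^ 5 * T) < n ^ 2 := by
      rw [lt_div_iff₀ (by positivity)] at h1
      linarith
    have h4 : T' + κ ^ 2 * T' ≤ 2 * (κ ^ 2 * T') := by nlinarith
    have h5 : κ ^ 2 * T' ≤ κ ^ 2 * (20 * T) := mul_le_mul_of_nonneg_left hT' (by positivity)
    have h6 : (n * (33 / 100)) ^ 2 ≤ m ^ 2 := by
      apply pow_le_pow_left₀ (by positivity)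
      linarith
    have h7 : (n * (33 / 100)) ^ 2 = n ^ 2 * (1089 / 10000) := by ring
    rw [h7] at h6
    linarith
  have a5 : ℓ / (q - ℓ) ≤ 11 / 1000 := by
    rw [div_le_iff₀ (by linarith)]
    linarith
  linarith

theorem core' {n κ N : ℕ} {T : ℝ} (hn : 1000 ≤ n) (hκ : 1 ≤ κ) (hN : 10 ^ 7 * n ≤ N) {Ω : Type}
    [MeasurableSpace Ω] (μ : Measure Ω) [IsProbabilityMeasure μ] (p : Ω → Prog n)
    (h : Solves (fun u => u.vars ≤ κ) N T μ p) (hT : 0 < T) :
    min ((n : ℝ) ^ 2 / κ ^ 2) (√(N / κ)) ≤ 10 ^ 5 * T := by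
  classical
  by_contra hcon
  rw [not_le] at hcon
  obtain ⟨h1, h2⟩ := lt_min_iff.1 hcon
  have h2' : 10 ^ 10 * T ^ 2 < N / κ := by
    have h3 := (Real.lt_sqrt (by positivity)).1 h2
    linarith
  obtain ⟨m, hmdef⟩ : ∃ m, m = n / 3 := ⟨_, rfl⟩
  obtain ⟨q, hqdef⟩ : ∃ q, q = N / (1440 * n) := ⟨_, rfl⟩
  obtain ⟨ℓ, hℓdef⟩ : ∃ ℓ, ℓ = q / 100 := ⟨_, rfl⟩
  obtain ⟨T', hT'def⟩ : ∃ T', T' = ⌊20 * T⌋₊ := ⟨_, rfl⟩
  have hm : 3 * m ≤ n := by omega
  have hm0 : 0 < m := by omega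
  have hqN : 1440 * n * q ≤ N := by
    rw [hqdef]
    exact Nat.mul_div_le _ _
  have hqN' : N < 1440 * n * (q + 1) := by
    rw [hqdef]
    have := Nat.lt_mul_div_succ N (show 0 < 1440 * n by omega)
    exact this
  have hq6 : 6900 ≤ q := by
    by_contra hc
    push Not at hc
    have h3 : 1440 * n * (q + 1) ≤ 1440 * n * 6900 := Nat.mul_le_mul_left _ (by omega)
    omega
  have hq0 : 0 < q := by omega
  have hℓ0 : 0 < ℓ := by omega
  have hℓq : ℓ < q := by omega
  have hT'20 : (T' : ℝ) ≤ 20 * T := by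
    rw [hT'def]
    exact Nat.floor_le (by positivity)
  have hvars : ∀ u : Form n, u.vars ≤ κ → (univ.filter fun b => cf hm u b ≠ 0).card ≤ κ := by
    intro u hu
    refine le_trans ?_ hu
    unfold Form.vars
    rw [Nat.card_eq_fintype_card, Fintype.card_subtype]
    apply card_le_card_of_injOn (HashComp.emb hm)
    · intro b hb
      simp only [coe_filter, mem_univ, true_and, Set.mem_ofPred_eq] at hb ⊢
      exact hb
    · exact (HashComp.emb_injective hm).injOn
  have key := HashComp.core (Λ := 2 * κ * T' ^ 2) (Γ := κ ^ 2 * T') hm hm0 hℓ0 hℓq hq0 hqN hT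
    hT'def μ p h (fun _ _ => True) (fun _ _ _ _ _ _ _ => trivial)
    (fun ω s hs hF => by
      have := load_le (alg hm hq0 (p ω) (h.uses ω) (fun _ _ => True)
        (fun _ _ _ _ _ _ _ => trivial)) κ s
        (fun u hu => hvars u ((alg_F hm hq0 (p ω) (h.uses ω) _ _ s).2 u hu))
      exact this.trans (Nat.mul_le_mul_left _ (Nat.pow_le_pow_left hF 2)))
    (fun ω s hs hF S hS hcov => by
      have := cov_le (alg hm hq0 (p ω) (h.uses ω) (fun _ _ => True)
        (fun _ _ _ _ _ _ _ => trivial)) κ s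
        (fun u hu => hvars u ((alg_F hm hq0 (p ω) (h.uses ω) _ _ s).2 u hu)) S hS hcov
      exact this.trans (Nat.mul_le_mul_left _ hF))
  push_cast at key
  have c1 : (n : ℝ) - 2 ≤ 3 * m := by
    have : n ≤ 3 * m + 2 := by omega
    have : (n : ℝ) ≤ 3 * m + 2 := by exact_mod_cast this
    linarith
  have c3 : (N : ℝ) ≤ 1440 * n * (q + 1) := by exact_mod_cast hqN'.le
  have c4 : (q : ℝ) - 99 ≤ 100 * ℓ := by
    have : q ≤ 100 * ℓ + 99 := by omega
    have : (q : ℝ) ≤ 100 * ℓ + 99 := by exact_mod_cast this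
    linarith
  have c5 : 100 * (ℓ : ℝ) ≤ q := by
    have : 100 * ℓ ≤ q := by omega
    exact_mod_cast this
  exact numeric n m q ℓ κ T' T N (by exact_mod_cast hn) c1 (by exact_mod_cast hN)
    c3 c4 c5 (by exact_mod_cast hκ) hT (Nat.cast_nonneg _) hT'20 h1 h2' key

/-- **Main theorem.** A randomized algorithm which hashes affine forms with at most `κ` variables
and makes comparisons, and which solves 3SUM on `n` distinct integers in `[-N, N]` with error
probability at most `1 / 3` and expected cost at most `T`, satisfies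
`T ≥ 10 ^ (-5) * min (n ^ 2 / κ ^ 2) (√(N / κ))`. -/
theorem result {n κ N : ℕ} {T : ℝ} (hn : 1000 ≤ n) (hκ : 1 ≤ κ) (hN : 10 ^ 7 * n ≤ N) {Ω : Type}
    [MeasurableSpace Ω] (μ : Measure Ω) [IsProbabilityMeasure μ] (p : Ω → Prog n)
    (h : Solves (fun u => u.vars ≤ κ) N T μ p) :
    min ((n : ℝ) ^ 2 / κ ^ 2) (√(N / κ)) ≤ 10 ^ 5 * T := by
  rcases lt_or_ge 0 T with hT | hT
  · exact core' hn hκ hN μ p h hT
  · exfalso
    have h1 : ∀ ε : ℝ, 0 < ε → min ((n : ℝ) ^ 2 / κ ^ 2) (√(N / κ)) ≤ 10 ^ 5 * ε := by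
      intro ε hε
      refine core' hn hκ hN μ p ⟨h.uses, h.measurable_cost, h.measurable_answer, fun x hx =>
        (h.cost_le x hx).trans (ENNReal.ofReal_le_ofReal (hT.trans hε.le)), h.error_le⟩ hε
    have hn0 : (0 : ℝ) < n := by
      have : 0 < n := by omega
      exact_mod_cast this
    have hN0 : (0 : ℝ) < N := by
      have : 0 < N := by omega
      exact_mod_cast this
    have hκ0 : (0 : ℝ) < κ := by exact_mod_cast hκ
    have h2 : 0 < min ((n : ℝ) ^ 2 / κ ^ 2) (√(N / κ)) := by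
      apply lt_min (by positivity)
      apply Real.sqrt_pos.2
      positivity
    have h3 := h1 (min ((n : ℝ) ^ 2 / κ ^ 2) (√(N / κ)) / (2 * 10 ^ 5)) (by positivity)
    linarith

end Pool.Agent.Results.MP_13bec0_lc.HashAndCompare
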