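import Mathlib
import Pool.Agent.J4.H80.HybModel
import Pool.Agent.J4.H80.HybCore

/-!
# Hashing sums and differences of pairs, and comparing

The algorithms of the model in `Pool.Agent.J4.H80.HybModel` which hash input numbers, sums and
differences of two input numbers, and constants, and which compare input numbers and sums of two
input numbers, need at least a constant times `n ^ 2` operations for 3SUM on `n` integers in
`[-n ^ 3, n ^ 3]`, even if they are randomized and may err.
-/

set_option autoImplicit false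

open Finset MeasureTheory
open scoped ENNReal

namespace Pool.Agent.Results.MP_13bec0_lc.HashPairSums

open Pool.Agent.J4.H80 Pool.Agent.J4.H80.HashComp Pool.Agent.J4.H80.Gen Pool.Agent.J4.H80.Hyb
  Pool.Agent.J4.H80.Cover

variable {n m : ℕ}

/-- value of a pair form -/
lemma eval_pair {u : Form n} {σ τ : SignType} {i j : Fin n} (h0 : u.const = 0)
    (h : ∀ k, u.coef k = (if k = i then (σ : ℝ) else 0) + (if k = j then (τ : ℝ) else 0))
    (x : Fin n → ℤ) : u.eval x = σ * x i + τ * x j := by
  unfold Form.eval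
  rw [h0]
  simp_rw [h, add_mul, ite_mul, zero_mul]
  rw [sum_add_distrib, sum_ite_eq' univ i, sum_ite_eq' univ j]
  simp

lemma eval_const {u : Form n} (h : ∀ k, u.coef k = 0) (x : Fin n → ℤ) : u.eval x = u.const := by
  unfold Form.eval
  simp [h]

lemma sign_bound {q : ℕ} (σ : SignType) {x : ℤ} (hx : 0 ≤ x ∧ x < 4 * q) :
    |(σ : ℝ) * (x : ℝ)| < 4 * q := by
  obtain ⟨h0, h1⟩ := hx
  have h0' : (0 : ℝ) ≤ x := by exact_mod_cast h0
  have h1' : (x : ℝ) < 4 * q := by exact_mod_cast h1
  cases σ
  · simp only [SignType.zero_eq_zero, SignType.coe_zero, zero_mul, abs_zero]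
    linarith
  · simp only [SignType.neg_eq_neg_one, SignType.coe_neg_one, neg_mul, one_mul, abs_neg]
    rw [abs_of_nonneg h0']
    exact h1'
  · simp only [SignType.pos_eq_one, SignType.coe_one, one_mul]
    rw [abs_of_nonneg h0']
    exact h1'

/-- a simple form has almost the same value at all hard inputs -/
lemma simple_bound {q : ℕ} (hq : 0 < q) {u : Form n} (hu : u.Simple) {s : Fin 3 × Fin m → ℕ}
    (hs : Fine q s) : |u.eval (inp n m q s) - u.eval (inp n m q fun _ => 0)| < 8 * q := by
  have hq' : (0 : ℝ) < q := by exact_mod_cast hq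
  rcases hu with h | ⟨h0, σ, τ, i, j, h⟩
  · rw [eval_const h, eval_const h, sub_self, abs_zero]
    positivity
  · rw [eval_pair h0 h, eval_pair h0 h]
    have e : ∀ k : Fin n, ((inp n m q s k : ℤ) : ℝ) =
        (inp n m q (fun _ => 0) k : ℤ) + (nu n m s k : ℤ) := by
      intro k
      unfold inp
      have : nu n m (fun _ => 0) k = 0 := by
        unfold nu
        split_ifs <;> simp
      rw [this]
      push_cast
      ring
    rw [e i, e j]
    have bi := sign_bound σ (nu_bound (n := n) hq hs i)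
    have bj := sign_bound τ (nu_bound (n := n) hq hs j)
    have e2 : (σ : ℝ) * ((inp n m q (fun _ => 0) i : ℤ) + (nu n m s i : ℤ)) +
        τ * ((inp n m q (fun _ => 0) j : ℤ) + (nu n m s j : ℤ)) -
        (σ * ((inp n m q (fun _ => 0) i : ℤ) : ℝ) + τ * ((inp n m q (fun _ => 0) j : ℤ) : ℝ)) =
        σ * (nu n m s i : ℤ) + τ * (nu n m s j : ℤ) := by ring
    rw [e2]
    refine (abs_add_le _ _).trans_lt ?_
    linarith

/-- two forms which may be equal on a hard input -/
def Comp (n m q : ℕ) (u v : Form n) : Prop :=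
  |u.eval (inp n m q fun _ => 0) - v.eval (inp n m q fun _ => 0)| < 16 * q

lemma comp_of_eq {q : ℕ} (hq : 0 < q) (u v : Form n) (hu : u.Simple) (hv : v.Simple)
    (s : Fin 3 × Fin m → ℕ) (hs : Fine q s) (h : u.eval (inp n m q s) = v.eval (inp n m q s)) :
    Comp n m q u v := by
  have h1 := simple_bound hq hu hs
  have h2 := simple_bound hq hv hs
  unfold Comp
  rw [abs_lt] at h1 h2 ⊢
  constructor <;> linarith [h1.1, h1.2, h2.1, h2.2]

/-- a pair form is compatible with few pair forms -/
lemma card_comp_le (hm : 3 * m ≤ n) {q : ℕ} (hq : 0 < q) (v : Form n) (F : Finset (Form n))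
    (hF : ∀ u ∈ F, (u.const = 0 ∧ ∃ (σ τ : SignType) (i j : Fin n),
    ∀ k, u.coef k = (if k = i then (σ : ℝ) else 0) + (if k = j then (τ : ℝ) else 0)) ∧
      Comp n m q u v) : F.card ≤ 9 * n := by
  classical
  have hq' : (0 : ℝ) < q := by exact_mod_cast hq
  have h1 : F.card ≤ (univ : Finset (SignType × SignType × Fin n)).card := by
    apply card_le_card_of_forall_subsingleton (fun u x => u.const = 0 ∧ Comp n m q u v ∧
      ∃ j, ∀ k, u.coef k = (if k = x.2.2 then (x.1 : ℝ) else 0) +
        (if k = j then (x.2.1 : ℝ) else 0))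
    · intro u hu
      obtain ⟨⟨h0, σ, τ, i, j, h⟩, hc⟩ := hF u hu
      exact ⟨(σ, τ, i), mem_univ _, h0, hc, j, h⟩
    · rintro ⟨σ, τ, i⟩ _ u ⟨_, h0, hc, j, h⟩ u' ⟨_, h0', hc', j', h'⟩
      simp only at h h'
      unfold Comp at hc hc'
      rw [eval_pair h0 h] at hc
      rw [eval_pair h0' h'] at hc'
      have e : ∀ k : Fin n, ((inp n m q (fun _ => 0) k : ℤ) : ℝ) = 32 * q * (Z n m k : ℤ) := by
        intro k
        unfold inp
        have : nu n m (fun _ => 0) k = 0 := by
          unfold nu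
          split_ifs <;> simp
        rw [this]
        push_cast
        ring
      rw [e i, e j] at hc
      rw [e i, e j'] at hc'
      rw [abs_lt] at hc hc'
      have h2 : (32 * q : ℝ) * (τ * ((Z n m j : ℤ) - (Z n m j' : ℤ))) < 32 * q * 1 := by
        linarith [hc.1, hc.2, hc'.1, hc'.2]
      have h3 : (32 * q : ℝ) * (-1) < 32 * q * (τ * ((Z n m j : ℤ) - (Z n m j' : ℤ))) := by
        linarith [hc.1, hc.2, hc'.1, hc'.2]
      have h4 := lt_of_mul_lt_mul_left h2 (by positivity)
      have h5 := lt_of_mul_lt_mul_left h3 (by positivity)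
      have h6 : (τ : ℤ) * (Z n m j - Z n m j') = 0 := by
        have h4' : (τ : ℤ) * (Z n m j - Z n m j') < 1 := by
          have : (((τ : ℤ) * (Z n m j - Z n m j') : ℤ) : ℝ) < ((1 : ℤ) : ℝ) := by
            push_cast
            exact h4
          exact_mod_cast this
        have h5' : -1 < (τ : ℤ) * (Z n m j - Z n m j') := by
          have : (((-1 : ℤ)) : ℝ) < (((τ : ℤ) * (Z n m j - Z n m j') : ℤ) : ℝ) := by
            push_cast
            exact h5
          exact_mod_cast this
        omega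
      have h7 : u.coef = u'.coef := by
        funext k
        rw [h, h']
        rcases mul_eq_zero.1 h6 with h8 | h8
        · have h9 : (τ : ℝ) = 0 := by
            have : ((τ : ℤ) : ℝ) = 0 := by rw [h8]; simp
            simpa using this
          rw [h9]
          simp
        · have h9 : j = j' := Z_inj hm (sub_eq_zero.1 h8)
          rw [h9]
      cases u
      cases u'
      simp only at h0 h0' h7
      rw [h0, h0', h7]
  refine h1.trans (le_of_eq ?_)
  rw [card_univ, Fintype.card_prod, Fintype.card_prod, Fintype.card_fin]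
  have : Fintype.card SignType = 3 := rfl
  rw [this]
  ring

/-- a form which is a signed sum of two variables -/
def Pr (u : Form n) : Prop := u.const = 0 ∧ ∃ (σ τ : SignType) (i j : Fin n),
    ∀ k, u.coef k = (if k = i then (σ : ℝ) else 0) + (if k = j then (τ : ℝ) else 0)

lemma comp_symm {q : ℕ} {u v : Form n} (h : Comp n m q u v) : Comp n m q v u := by
  unfold Comp at h ⊢
  rwa [abs_sub_comm]

lemma simple_vars (hm : 3 * m ≤ n) {u : Form n} (hu : u.Simple) :
    (univ.filter fun b => cf hm u b ≠ 0).card ≤ 2 := by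
  classical
  rcases hu with h | ⟨_, σ, τ, i, j, h⟩
  · have : (univ.filter fun b => cf hm u b ≠ 0) = ∅ := by
      apply filter_eq_empty_iff.2
      intro b _
      simp [cf, h]
    rw [this]
    simp
  · have h1 : (univ.filter fun b => cf hm u b ≠ 0).card ≤ ({i, j} : Finset (Fin n)).card := by
      apply card_le_card_of_injOn (HashComp.emb hm)
      · intro b hb
        simp only [coe_filter, mem_univ, true_and, Set.mem_ofPred_eq] at hb
        unfold cf at hb
        rw [h] at hb
        simp only [coe_insert, coe_singleton, Set.mem_insert_iff, Set.mem_singleton_iff]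
        by_contra hcon
        push Not at hcon
        rw [if_neg hcon.1, if_neg hcon.2] at hb
        exact hb (by ring)
      · exact (HashComp.emb_injective hm).injOn
    exact h1.trans card_le_two

open Classical in
lemma pairs_le (hm : 3 * m ≤ n) {q : ℕ} (hq : 0 < q) (F : Finset (Form n)) :
    ((F ×ˢ F).filter fun p => Comp n m q p.1 p.2 ∧ Pr p.1).card ≤ F.card * (9 * n) := by
  rw [card_prod_filter' F F (fun u v => Comp n m q u v ∧ Pr u), ← smul_eq_mul, ← sum_const]
  refine sum_le_sum fun v _ => ?_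
  apply card_comp_le hm hq v
  intro u hu
  exact ⟨(mem_filter.1 hu).2.2, (mem_filter.1 hu).2.1⟩

open Classical in
lemma pairs_le' (hm : 3 * m ≤ n) {q : ℕ} (hq : 0 < q) (F : Finset (Form n)) :
    ((F ×ˢ F).filter fun p => Comp n m q p.1 p.2 ∧ Pr p.2).card ≤ F.card * (9 * n) := by
  rw [card_prod_filter F F (fun u v => Comp n m q u v ∧ Pr v), ← smul_eq_mul, ← sum_const]
  refine sum_le_sum fun u _ => ?_
  apply card_comp_le hm hq u
  intro v hv
  exact ⟨(mem_filter.1 hv).2.2, comp_symm (mem_filter.1 hv).2.1⟩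

lemma load_le' (hm : 3 * m ≤ n) {q : ℕ} (hq : 0 < q) (p : Prog n) (hp : p.Uses Form.Simple)
    (s : Fin 3 × Fin m → ℕ) :
    ∑ b, (HD (alg hm hq p hp (Comp n m q) (comp_of_eq hq)) b s).card ≤
      72 * n * ((alg hm hq p hp (Comp n m q) (comp_of_eq hq)).F s).card := by
  classical
  set P := alg hm hq p hp (Comp n m q) (comp_of_eq hq) with hP
  have hsimple : ∀ u ∈ P.F s, u.Simple := (alg_F hm hq p hp _ _ s).2
  rw [sum_HD]
  have h1 : ∀ x ∈ (P.F s ×ˢ P.F s).filter (fun x => P.compat x.1 x.2),
      (univ.filter fun b => cf hm x.1 b ≠ cf hm x.2 b).card ≤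
        (if Pr x.1 then 4 else 0) + (if Pr x.2 then 4 else 0) := by
    intro x hx
    have hx' := mem_product.1 (mem_filter.1 hx).1
    have s1 := hsimple _ hx'.1
    have s2 := hsimple _ hx'.2
    have h4 := card_diff_le (c := cf hm) (simple_vars hm s1) (simple_vars hm s2)
    by_cases p1 : Pr x.1
    · rw [if_pos p1]
      omega
    · by_cases p2 : Pr x.2
      · rw [if_pos p2]
        omega
      · have z1 : ∀ k, x.1.coef k = 0 := by
          rcases s1 with h | h
          · exact h
          · exact absurd h p1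
        have z2 : ∀ k, x.2.coef k = 0 := by
          rcases s2 with h | h
          · exact h
          · exact absurd h p2
        have : (univ.filter fun b => cf hm x.1 b ≠ cf hm x.2 b) = ∅ := by
          apply filter_eq_empty_iff.2
          intro b _
          simp [cf, z1, z2]
        rw [this]
        simp
  refine (sum_le_sum h1).trans ?_
  rw [sum_add_distrib, ← sum_filter, ← sum_filter, sum_const, sum_const, filter_filter,
    filter_filter, smul_eq_mul, smul_eq_mul]
  have h2 : ((P.F s ×ˢ P.F s).filter fun a => P.compat a.1 a.2 ∧ Pr a.1).card ≤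
      (P.F s).card * (9 * n) := pairs_le hm hq (P.F s)
  have h3 : ((P.F s ×ˢ P.F s).filter fun a => P.compat a.1 a.2 ∧ Pr a.2).card ≤
      (P.F s).card * (9 * n) := pairs_le' hm hq (P.F s)
  have h4 : 72 * n * (P.F s).card = (P.F s).card * (9 * n) * 4 + (P.F s).card * (9 * n) * 4 := by
    ring
  rw [h4]
  exact add_le_add (Nat.mul_le_mul_right _ h2) (Nat.mul_le_mul_right _ h3)

lemma numeric (n m q ℓ T' T N : ℝ) (hn : 1000 ≤ n) (hm1 : n - 2 ≤ 3 * m)
    (hN : 10 ^ 7 * n ≤ N) (hq1 : N ≤ 1440 * n * (q + 1))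
    (hℓ1 : q - 99 ≤ 100 * ℓ) (hℓ2 : 100 * ℓ ≤ q) (hT' : T' ≤ 20 * T)
    (h1 : 10 ^ 10 * T < n ^ 2) (h2 : 10 ^ 10 * T < N / n)
    (h : (17 / 60 : ℝ) ≤ 2 * (72 * n * T') / (ℓ * m) + 3 * (2 * ℓ + 1) / q + 2 * ℓ / q +
      2 * (T' + 4 * T') / m ^ 2 + ℓ / (q - ℓ)) : False := by
  have hn0 : 0 < n := by linarith
  have hm0 : 332 ≤ m := by linarith
  have hq0 : 6900 ≤ q := by
    by_contra hcon
    push Not at hcon
    have : 1440 * n * (q + 1) < 1440 * n * 6901 := by
      apply mul_lt_mul_of_pos_left (by linarith) (by positivity)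
    linarith
  have hq00 : 0 < q := by linarith
  have hℓ0 : q / 102 ≤ ℓ := by linarith
  have hℓ00 : 0 < ℓ := by linarith
  have hN0 : 0 < N := by linarith
  have hqn : N / 1441 ≤ n * q := by nlinarith
  have a1 : 2 * (72 * n * T') / (ℓ * m) ≤ 15 / 100 := by
    have h4 : n * (10 ^ 10 * T) < N := by
      rw [lt_div_iff₀ (by linarith)] at h2
      linarith
    have h5 : n * T' ≤ n * (20 * T) := mul_le_mul_of_nonneg_left hT' (by linarith)
    have h6 : N / 450000 ≤ ℓ * m := by
      have h7 : (q / 102) * (n / 3.01) ≤ ℓ * m :=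
        mul_le_mul hℓ0 (by norm_num; linarith) (by positivity) hℓ00.le
      have h8 : (q / 102) * (n / 3.01) = n * q * (100 / 30702) := by ring
      rw [h8] at h7
      linarith
    rw [div_le_iff₀ (by positivity)]
    linarith
  have a2 : 3 * (2 * ℓ + 1) / q ≤ 61 / 1000 := by
    rw [div_le_iff₀ hq00]
    linarith
  have a3 : 2 * ℓ / q ≤ 20 / 1000 := by
    rw [div_le_iff₀ hq00]
    linarith
  have a4 : 2 * (T' + 4 * T') / m ^ 2 ≤ 1 / 100 := by
    rw [div_le_iff₀ (by positivity)]
    have h6 : (n * (33 / 100)) ^ 2 ≤ m ^ 2 := by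
      apply pow_le_pow_left₀ (by positivity)
      linarith
    have h7 : (n * (33 / 100)) ^ 2 = n ^ 2 * (1089 / 10000) := by ring
    rw [h7] at h6
    have := sq_nonneg n
    linarith
  have a5 : ℓ / (q - ℓ) ≤ 11 / 1000 := by
    rw [div_le_iff₀ (by linarith)]
    linarith
  linarith

theorem core' {n N : ℕ} {T : ℝ} (hn : 1000 ≤ n) (hN : 10 ^ 7 * n ≤ N) {Ω : Type}
    [MeasurableSpace Ω] (μ : Measure Ω) [IsProbabilityMeasure μ] (p : Ω → Prog n)
    (h : Solves Form.Simple N T μ p) (hT : 0 < T) :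
    min ((n : ℝ) ^ 2) (N / n) ≤ 10 ^ 10 * T := by
  classical
  by_contra hcon
  rw [not_le] at hcon
  obtain ⟨h1, h2⟩ := lt_min_iff.1 hcon
  obtain ⟨m, hmdef⟩ : ∃ m, m = n / 3 := ⟨_, rfl⟩
  obtain ⟨q, hqdef⟩ : ∃ q, q = N / (1440 * n) := ⟨_, rfl⟩
  obtain ⟨ℓ, hℓdef⟩ : ∃ ℓ, ℓ = q / 100 := ⟨_, rfl⟩
  obtain ⟨T', hT'def⟩ : ∃ T', T' = ⌊20 * T⌋₊ := ⟨_, rfl⟩
  have hm : 3 * m ≤ n := by omega
  have hm0 : 0 < m := by omega
  have hqN : 1440 * n * q ≤ N := by
    rw [hqdef]
    exact Nat.mul_div_le _ _
  have hqN' : N < 1440 * n * (q + 1) := by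
    rw [hqdef]
    have := Nat.lt_mul_div_succ N (show 0 < 1440 * n by omega)
    exact this
  have hq6 : 6900 ≤ q := by
    by_contra hc
    push Not at hc
    have h3 : 1440 * n * (q + 1) ≤ 1440 * n * 6900 := Nat.mul_le_mul_left _ (by omega)
    omega
  have hq0 : 0 < q := by omega
  have hℓ0 : 0 < ℓ := by omega
  have hℓq : ℓ < q := by omega
  have hT'20 : (T' : ℝ) ≤ 20 * T := by
    rw [hT'def]
    exact Nat.floor_le (by positivity)
  have key := HashComp.core (Λ := 72 * n * T') (Γ := 2 ^ 2 * T') hm hm0 hℓ0 hℓq hq0 hqN hT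
    hT'def μ p h (Comp n m q) (comp_of_eq hq0)
    (fun ω s hs hF => (load_le' hm hq0 (p ω) (h.uses ω) s).trans (Nat.mul_le_mul_left _ hF))
    (fun ω s hs hF S hS hcov => by
      have := cov_le (alg hm hq0 (p ω) (h.uses ω) (Comp n m q) (comp_of_eq hq0)) 2 s
        (fun u hu => simple_vars hm ((alg_F hm hq0 (p ω) (h.uses ω) _ _ s).2 u hu)) S hS hcov
      exact this.trans (Nat.mul_le_mul_left _ hF))
  push_cast at key
  have c1 : (n : ℝ) - 2 ≤ 3 * m := by
    have : n ≤ 3 * m + 2 := by omega
    have : (n : ℝ) ≤ 3 * m + 2 := by exact_mod_cast this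
    linarith
  have c3 : (N : ℝ) ≤ 1440 * n * (q + 1) := by exact_mod_cast hqN'.le
  have c4 : (q : ℝ) - 99 ≤ 100 * ℓ := by
    have : q ≤ 100 * ℓ + 99 := by omega
    have : (q : ℝ) ≤ 100 * ℓ + 99 := by exact_mod_cast this
    linarith
  have c5 : 100 * (ℓ : ℝ) ≤ q := by
    have : 100 * ℓ ≤ q := by omega
    exact_mod_cast this
  exact numeric n m q ℓ T' T N (by exact_mod_cast hn) c1 (by exact_mod_cast hN)
    c3 c4 c5 hT'20 h1 h2 key

/-- **Main theorem.** A randomized algorithm which hashes input numbers, sums and differences of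
two input numbers, and constants, which compares input numbers and sums of two input numbers, and
which solves 3SUM on `n` distinct integers in `[-N, N]` with error probability at most `1 / 3` and
expected cost at most `T`, satisfies `T ≥ 10 ^ (-10) * min (n ^ 2) (N / n)`. -/
theorem result {n N : ℕ} {T : ℝ} (hn : 1000 ≤ n) (hN : 10 ^ 7 * n ≤ N) {Ω : Type}
    [MeasurableSpace Ω] (μ : Measure Ω) [IsProbabilityMeasure μ] (p : Ω → Prog n)
    (h : Solves Form.Simple N T μ p) : min ((n : ℝ) ^ 2) (N / n) ≤ 10 ^ 10 * T := by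
  rcases lt_or_ge 0 T with hT | hT
  · exact core' hn hN μ p h hT
  · exfalso
    have h1 : ∀ ε : ℝ, 0 < ε → min ((n : ℝ) ^ 2) (N / n) ≤ 10 ^ 10 * ε := by
      intro ε hε
      refine core' hn hN μ p ⟨h.uses, h.measurable_cost, h.measurable_answer, fun x hx =>
        (h.cost_le x hx).trans (ENNReal.ofReal_le_ofReal (hT.trans hε.le)), h.error_le⟩ hε
    have hn0 : (0 : ℝ) < n := by
      have : 0 < n := by omega
      exact_mod_cast this
    have hN0 : (0 : ℝ) < N := by
      have : 0 < N := by omega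
      exact_mod_cast this
    have h2 : 0 < min ((n : ℝ) ^ 2) (N / n) := by
      apply lt_min (by positivity)
      positivity
    have h3 := h1 (min ((n : ℝ) ^ 2) (N / n) / (2 * 10 ^ 10)) (by positivity)
    linarith

end Pool.Agent.Results.MP_13bec0_lc.HashPairSums
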